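import Pool.Agent.Helper62.LH.StV

/-!
# Project LH, part A: analysis of `1`-forms and the main estimate

Statements with complete proofs in the docstrings. `W = e^{-f} vol`, `|θ|² = ip g x (θ x) (θ x)`.
-/

set_option autoImplicit false

open Set Filter Topology MeasureTheory
open scoped ContDiff ENNReal

noncomputable section

namespace Helper62.LH

/-! ## Local bounds -/

/-- locally square integrable function -/
def L2l {n : ℕ} (u : E n → ℝ) : Prop :=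
  AEStronglyMeasurable u volume ∧ ∀ K, IsCompact K → IntegrableOn (fun x => u x ^ 2) K

/-- components of a form are locally square integrable -/
def L2f {n : ℕ} (θ : E n → Dl n) : Prop := ∀ j, L2l (fun x => θ x (ee j))

/-- UT (150 lines). Continuity and local bounds. Hypotheses: StChe StShp StIna StInb.
PROOF. The functions `gi g · i j` are smooth (SHP with a connection from CHE), `gm g x` is positive definite, so
`det (gm g x) > 0` is smooth and `vol g` is continuous and positive. `ip`, `iB` are finite sums of products of `gi` and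
of the values on the standard basis. Bounds: `ip g x a a` is continuous in `(x,a)` and positive on the compact set `K × sphere`
(INA (3)); homogeneity; `nB` similarly (only the upper bound; if `K` is empty or `n = 0` take `c = C = 1`). Last claim: `θ` is
almost everywhere strongly measurable iff all its components are (`θ x = ∑ j, θ x (ee j) • proj j`), and on `K`
`c' ∑ j, (θ x (ee j))² ≤ ip θ θ vol ≤ C' ∑ j, (θ x (ee j))²`. -/
def StUt : Prop := ∀ (n : ℕ) (g : E n → Bl n), IsMet g →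
  (∀ θ η : E n → Dl n, Continuous θ → Continuous η →
    Continuous (fun x => ip g x (θ x) (η x))) ∧
  (∀ B C : E n → Bl n, Continuous B → Continuous C →
    Continuous (fun x => iB g x (fun u v => B x u v) (fun u v => C x u v))) ∧
  Continuous (vol g) ∧ (∀ x, 0 < vol g x) ∧
  (∀ K, IsCompact K → ∃ c C : ℝ, 0 < c ∧ 0 < C ∧ ∀ x ∈ K, c ≤ vol g x ∧ vol g x ≤ C ∧
    (∀ a : Dl n, c * ‖a‖ ^ 2 ≤ ip g x a a ∧ ip g x a a ≤ C * ‖a‖ ^ 2) ∧
    ∀ B : Bl n, nB g x (fun u v => B u v) ≤ C * ‖B‖ ^ 2) ∧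
  ∀ θ : E n → Dl n, L2f θ ↔ AEStronglyMeasurable θ volume ∧
    ∀ K, IsCompact K → IntegrableOn (fun x => ip g x (θ x) (θ x) * vol g x) K

/-! ## Weighted Bochner inequality -/

/-- RIC (50 lines). Nonnegative Ricci curvature. Hypotheses: StOnb StTr.
PROOF. The map `L u = Rm Γ x u v v` is linear in `u` (a continuous linear map, finite dimension). By TR, last formula, with
an orthonormal basis `f` at `x`: `∑ i, (L (ee i)) i = ∑ i, g(R(f i,v)v, f i) ≥ 0` by `Sec`. -/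
def StRic : Prop := ∀ (n : ℕ) (g : E n → Bl n) (Γ : E n → Bm n), IsMet g → IsChr g Γ → Sec g Γ →
  ∀ x v, 0 ≤ ∑ i, (Rm Γ x (ee i) v v) i

/-- DLV (120 lines). The derivative of the volume density. Hypotheses: StChr.
PROOF. `det (gm g x) > 0` (positive definite matrix), so `vol g` is smooth and positive. Jacobi's formula:
`D_v det gm = det gm · tr(gm⁻¹ D_v gm)`, and by compatibility (CHR) `(D_v gm)_{ij} = g(Γ(v,e_i),e_j) + g(e_i,Γ(v,e_j))`,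
`∑ j, gi i j * g(z,e_j) = z i`; so `tr(gm⁻¹ D_v gm) = 2 ∑ i, (Γ(v,e_i)) i`. Jacobi's formula for a differentiable matrix valued
function at an invertible matrix: `det` is multilinear in the rows (`ContinuousMultilinearMap`/`Matrix.detRowAlternating`
`hasFDerivAt`), or from `det (A + H) = det A · det (1 + A⁻¹H)` and `det (1 + tM) = 1 + t tr M + O(t²)`
(`Matrix.derivative_det_one_add_X_smul` or the Leibniz formula). -/
def StDlv : Prop := ∀ (n : ℕ) (g : E n → Bl n) (Γ : E n → Bm n), IsMet g → IsChr g Γ →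
  ContDiff ℝ ∞ (vol g) ∧ (∀ x, 0 < vol g x) ∧
  ∀ x v, fderiv ℝ (vol g) x v = vol g x * ∑ i, (Γ x v (ee i)) i

/-- `∇X` as an endomorphism: `u ↦ DX(u) + Γ(u,X)` -/
def cX {n : ℕ} (Γ : E n → Bm n) (X : E n → E n) (x : E n) : E n →L[ℝ] E n :=
  fderiv ℝ X x + (Γ x).flip (X x)

/-- weighted divergence of a vector field -/
def dvf {n : ℕ} (Γ : E n → Bm n) (f : E n → ℝ) (X : E n → E n) (x : E n) : ℝ :=
  ∑ i, (cX Γ X x (ee i)) i - fderiv ℝ f x (X x)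

/-- DIV (80 lines). Divergence theorem with weight. Hypotheses: StChr StDlv.
PROOF. The integrand equals `∑ i, ∂_i (e^{-f} vol Y_i)` (product rule, DLV, symmetry of `Γ`), a sum of derivatives of `C¹`
functions with compact support; each integral vanishes (`integral_fderiv_eq_zero`-type statement; e.g.
`integral_bilinear_hasLineDerivAt_right_eq_neg_left_of_integrable` or
`integral_mul_fderiv_eq_neg_fderiv_mul_of_integrable` with the constant function `1` replaced by a bump function). -/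
def StDiv : Prop := ∀ (n : ℕ) (g : E n → Bl n) (Γ : E n → Bm n), IsMet g → IsChr g Γ →
  ∀ f : E n → ℝ, ContDiff ℝ ∞ f → ∀ Y : E n → E n, ContDiff ℝ 1 Y → HasCompactSupport Y →
    ∫ x, dvf Γ f Y x * (Real.exp (-f x) * vol g x) = 0

/-- PTW (200 lines). Pointwise Bochner identity for a symmetric connection (no metric).
PROOF. Write `tr L = ∑ i, (L (ee i)) i`, `A = cX Γ X`, `Γ_v u = Γ(u,v) = Γ(v,u)`; `tr(LM) = tr(ML)`. `φ = dvf Γ f X`.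
(1) `dvf (φ X) = φ dvf X + Dφ(X)`. (2) For `Z y = A y (X y)`: `DZ(u) = (D_uA)(X) + A(DX u)`, `DX u = A u - Γ(u,X)`,
`(D_uA)(v) = D²X(u,v) + D_uΓ(v,X) + Γ(v,DX u)`. So `tr(u ↦ DZ(u) + Γ(u,Z)) = tr(A²) + tr(u ↦ D²X(u,X) + D_uΓ(X,X) +
Γ(X,Au) - Γ(X,Γ(u,X)) - AΓ(u,X) + Γ(u,AX))`. (3) `D(tr A)(X) = tr(u ↦ D²X(X,u) + D_XΓ(u,X) + Γ(u,AX) -
Γ(u,Γ(X,X)))`. (4) Difference of (2) and (3) with `tr(Γ_X A) = tr(A Γ_X)` and the symmetry of `D²X`:
`tr(∇Z) = tr(A²) + D(tr A)(X) + ∑ i, (Rm Γ x (ee i) X X) i`. (5) `D(Df(X))(X) = D²f(X,X) + Df(DX X) = Hs f(X,X) + Df(Z)`.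
So `dvf Z = tr(A²) + Dφ(X) + Ric(X,X) + Hs f(X,X)`. Subtract from (1). -/
def StPtw : Prop := ∀ (n : ℕ) (Γ : E n → Bm n), ContDiff ℝ ∞ Γ → (∀ x u v, Γ x u v = Γ x v u) →
  ∀ (X : E n → E n) (f : E n → ℝ), ContDiff ℝ ∞ X → ContDiff ℝ ∞ f → ∀ x,
    dvf Γ f (fun y => dvf Γ f X y • X y - cX Γ X y (X y)) x =
      dvf Γ f X x ^ 2 - ∑ i, (cX Γ X x (cX Γ X x (ee i))) i -
        ∑ i, (Rm Γ x (ee i) (X x) (X x)) i - Hs Γ f x (X x) (X x)

/-- BO (200 lines). Weighted Bochner inequality. Hypotheses: StChr StOnb StTr StInb StShp StUt StRic StDlv StDiv StPtw.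
PROOF. `X y = shp g y (θ y)` is smooth with compact support, `g(cX Γ X x u, v) = cf Γ θ x u v` (SHP, symmetry of `Γ`),
`g(X,X) = ip(θ,θ)`. With an orthonormal basis `f` at `x` (TR): `∑ i, (cX (cX (ee i))) i = ∑ i j, cf(f i,f j) cf(f j,f i) =
iB cf cfᵀ = N2 θ - nB (dd θ)/2` (INB (8); `dd θ(u,v) = cf(u,v) - cf(v,u)`), `∑ i, (cX (ee i)) i = trg (cf)`,
`Df(X) = ip(Df,θ)`, so `dvf Γ f X = dl g Γ f θ`. Integrate PTW with DIV for the field
`Y = dvf X • X - cX X X` (compact support): `∫ (N2 θ - nB(dd θ)/2) W = ∫ ((dl θ)² - Ric(X,X) - Hs f(X,X)) W`, use RIC and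
`-Hs f(X,X) ≤ ε g(X,X)`. All integrands are continuous with compact support. -/
def StBo : Prop := ∀ (n : ℕ) (g : E n → Bl n) (Γ : E n → Bm n), IsMet g → IsChr g Γ → Sec g Γ →
  ∀ (f : E n → ℝ) (ε : ℝ), ContDiff ℝ ∞ f → (∀ x v, -(ε * g x v v) ≤ Hs Γ f x v v) →
  ∀ θ : E n → Dl n, ContDiff ℝ ∞ θ → HasCompactSupport θ →
    ∫ x, (N2 g Γ θ x - ε * ip g x (θ x) (θ x)) * (Real.exp (-f x) * vol g x) ≤
      ∫ x, (nB g x (dd θ x) / 2 + dl g Γ f θ x ^ 2) * (Real.exp (-f x) * vol g x)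

/-! ## Hilbert space projection -/

/-- CPT (150 lines). Completeness of the weighted `L²` space of `1`-forms. Hypotheses: StUt StIna.
PROOF. Choose `k_j` increasing with `∫ |θ_{k_{j+1}} - θ_{k_j}|² w ≤ 4^{-j}`. On a ball `B` there is `c > 0` with
`c ‖a‖² ≤ ip g x a a * w x` (continuity and positivity on a compact set; `ip g x a a > 0` for `a ≠ 0`). So
`∫_B ∑_j ‖θ_{k_{j+1}} - θ_{k_j}‖ ≤ ∑_j √(vol B) 2^{-j}/√c < ∞`, and the sequence converges almost everywhere on `B`, so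
almost everywhere; let `θ` be the limit. Fatou: `∫ |θ_k - θ|² w ≤ liminf_j ∫ |θ_k - θ_{k_j}|² w ≤ ε` for `k ≥ N(ε)`. -/
def StCpt : Prop := ∀ (n : ℕ) (g : E n → Bl n), IsMet g → ∀ w : E n → ℝ, Continuous w →
  (∀ x, 0 < w x) → ∀ θ : ℕ → E n → Dl n, (∀ k, Continuous (θ k)) →
  (∀ ε > 0, ∃ N, ∀ k ≥ N, ∀ l ≥ N,
    Integrable (fun x => ip g x (θ k x - θ l x) (θ k x - θ l x) * w x) ∧
    ∫ x, ip g x (θ k x - θ l x) (θ k x - θ l x) * w x ≤ ε) →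
  ∃ θ' : E n → Dl n, AEStronglyMeasurable θ' volume ∧ ∀ ε > 0, ∃ N, ∀ k ≥ N,
    Integrable (fun x => ip g x (θ k x - θ' x) (θ k x - θ' x) * w x) ∧
    ∫ x, ip g x (θ k x - θ' x) (θ k x - θ' x) * w x ≤ ε

/-- HP (180 lines). Projection to the weighted coclosed forms. Hypotheses: StUt StIna StCpt.
PROOF. `⟨α,β⟩ = ∫ ip α β w` on continuous `α, β` with `∫ |α|² w < ∞` (Cauchy-Schwarz for integrability). Let
`m = inf ‖θ₀ + du‖²` over `u` with `Cc u` and `u_k` with `‖θ₀ + du_k‖² ≤ m + 1/(k+1)`. Parallelogram identity: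
`‖du_k - du_l‖² = 2‖θ₀+du_k‖² + 2‖θ₀+du_l‖² - 4‖θ₀ + d(u_k+u_l)/2‖² ≤ 2/(k+1) + 2/(l+1)`. CPT gives `θ` with
`‖θ₀ + du_k - θ‖ → 0`; `‖θ‖² = m ≤ ‖θ₀‖²` (`u = 0`). For `u` with `Cc u` and real `s`:
`m ≤ ‖θ₀ + du_k + s du‖² → ‖θ + s du‖² = m + 2s⟨θ,du⟩ + s²‖du‖²`, so `⟨θ,du⟩ = 0`. -/
def StHp : Prop := ∀ (n : ℕ) (g : E n → Bl n), IsMet g → ∀ w : E n → ℝ, Continuous w →
  (∀ x, 0 < w x) → ∀ θ₀ : E n → Dl n, Continuous θ₀ →
  Integrable (fun x => ip g x (θ₀ x) (θ₀ x) * w x) →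
  ∃ θ : E n → Dl n, AEStronglyMeasurable θ volume ∧
    Integrable (fun x => ip g x (θ x) (θ x) * w x) ∧
    ∫ x, ip g x (θ x) (θ x) * w x ≤ ∫ x, ip g x (θ₀ x) (θ₀ x) * w x ∧
    (∀ u, Cc u → ∫ x, ip g x (θ x) (fderiv ℝ u x) * w x = 0) ∧
    ∀ κ > 0, ∃ u, Cc u ∧
      Integrable (fun x => ip g x (θ₀ x + fderiv ℝ u x - θ x) (θ₀ x + fderiv ℝ u x - θ x) * w x) ∧
      ∫ x, ip g x (θ₀ x + fderiv ℝ u x - θ x) (θ₀ x + fderiv ℝ u x - θ x) * w x ≤ κ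

/-! ## Mollification -/

/-- mollification with constant radius -/
def mo {n : ℕ} (ρ : E n → ℝ) (ε : ℝ) (u : E n → ℝ) (x : E n) : ℝ := ∫ y, ρ y * u (x - ε • y)

/-- MOS (120 lines). Smoothness of the mollification.
PROOF. `u` is locally integrable. Substitution `z = x - ε y`: `mo ρ ε u x = ε^{-n} ∫ ρ((x-z)/ε) u(z) dz` is the convolution of
`u` with the smooth function of compact support `z ↦ ε^{-n} ρ(z/ε)`: `HasCompactSupport.contDiff_convolution_left/right` and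
`HasCompactSupport.hasFDerivAt_convolution_left/right`. Substitute back. -/
def StMos : Prop := ∀ (n : ℕ) (ρ : E n → ℝ), Mol ρ → ∀ u : E n → ℝ, L2l u → ∀ ε > 0,
  ContDiff ℝ ∞ (mo ρ ε u) ∧
  ∀ x v, fderiv ℝ (mo ρ ε u) x v = ∫ y, (fderiv ℝ ρ y v) * u (x - ε • y) / ε

/-- SCH (120 lines). Schur bound.
PROOF. `T x = ∫_{‖y‖ ≤ 1} k x y u(x-εy) dy`, `B` the closed unit ball, `b` its volume. For `x ∈ K`:
`(T x)² ≤ M² b ∫_B u(x-εy)² dy` (Cauchy-Schwarz), and by Tonelli and translation invariance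
`∫_K ∫_B u(x-εy)² dy dx = ∫_B ∫_{K-εy} u² ≤ b ∫_{K₁} u²`, `K₁ = cthickening 1 K`. `T` is measurable (integral of a jointly
measurable function, `StronglyMeasurable.integral_prod_right`; replace `u` by a strongly measurable version; for fixed
`x` the integrals agree by quasi-invariance). -/
def StSch : Prop := ∀ (n : ℕ) (u : E n → ℝ), L2l u → ∀ (K : Set (E n)), IsCompact K →
  ∀ (k : E n → E n → ℝ) (M ε : ℝ), 0 < ε → ε ≤ 1 → Continuous (fun q : E n × E n => k q.1 q.2) →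
  (∀ x ∈ K, ∀ y, |k x y| ≤ M) → (∀ x y, 1 < ‖y‖ → k x y = 0) →
    IntegrableOn (fun x => (∫ y, k x y * u (x - ε • y)) ^ 2) K ∧
    ∫ x in K, (∫ y, k x y * u (x - ε • y)) ^ 2 ≤
      M ^ 2 * volume.real (Metric.closedBall (0 : E n) 1) ^ 2 *
        ∫ x in Metric.cthickening 1 K, u x ^ 2

/-- DEN (50 lines). Density of continuous functions.
PROOF. `u` restricted to `K` (indicator) is in `L²`: `MeasureTheory.MemLp.exists_hasCompactSupport_eLpNorm_sub_le`. -/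
def StDen : Prop := ∀ (n : ℕ) (u : E n → ℝ), L2l u → ∀ K : Set (E n), IsCompact K → ∀ η > 0,
  ∃ v : E n → ℝ, Continuous v ∧ HasCompactSupport v ∧ L2l (fun x => u x - v x) ∧
    ∫ x in K, (u x - v x) ^ 2 ≤ η

/-- MOC (120 lines). Convergence of the mollification. Hypotheses: StMos StSch StDen.
PROOF. `K₁ = cthickening 1 K`. Given `η`, let `v` be from DEN on `K₁` with `∫_{K₁} (u-v)² ≤ η`. `mo v → v` uniformly on `K`
(uniform continuity of `v`). `mo u - u = mo (u-v) + (mo v - v) + (v - u)`; by SCH with `k x y = ρ y`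
`∫_K (mo (u-v))² ≤ C η`. So `limsup ∫_K (mo u - u)² ≤ 3(C+1)η`. -/
def StMoc : Prop := ∀ (n : ℕ) (ρ : E n → ℝ), Mol ρ → ∀ u : E n → ℝ, L2l u → ∀ K : Set (E n),
  IsCompact K → Tendsto (fun ε : ℝ => ∫ x in K, (mo ρ ε u x - u x) ^ 2) (𝓝[>] 0) (𝓝 0)

/-- FRC (180 lines). Commutator lemma of Friedrichs. Hypotheses: StMos StSch StDen.
PROOF. By MOS and the product rule the expression under the square is
`T_ε u(x) = ∫ k_ε(x,y) u(x-εy) dy`, `k_ε(x,y) = Da(x)(v) ρ(y) + ((a(x) - a(x-εy))/ε) Dρ(y)(v)`, continuous, zero for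
`‖y‖ > 1` (also `Dρ(y) = 0` there, and on the sphere by continuity), bounded by `M` for `x ∈ K`, `0 < ε ≤ 1` (mean value
inequality). For `v' ` continuous with compact support (DEN): `T_ε v'(x) → v'(x) (Da(x)(v) ∫ρ + ∫ Da(x)(y) Dρ(y)(v) dy) = 0`
uniformly on `K`, since `∫ Da(x)(y) Dρ(y)(v) dy = - ∫ Da(x)(v) ρ(y) dy` (integration by parts) and `(a(x)-a(x-εy))/ε → Da(x)(y)`
uniformly, `v'(x-εy) → v'(x)` uniformly. For `u - v'` use SCH. -/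
def StFrc : Prop := ∀ (n : ℕ) (ρ : E n → ℝ), Mol ρ → ∀ a : E n → ℝ, ContDiff ℝ ∞ a →
  ∀ u : E n → ℝ, L2l u → ∀ (v : E n) (K : Set (E n)), IsCompact K →
  Tendsto (fun ε : ℝ => ∫ x in K, (fderiv ℝ (fun z => a z * mo ρ ε u z) x v -
    ∫ y, (fderiv ℝ ρ y v) * (a (x - ε • y) * u (x - ε • y)) / ε) ^ 2) (𝓝[>] 0) (𝓝 0)

/-- mollification of a `1`-form, component by component -/
def mf {n : ℕ} (ρ : E n → ℝ) (ε : ℝ) (θ : E n → Dl n) (x : E n) : Dl n :=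
  ∑ j, mo ρ ε (fun y => θ y (ee j)) x • EuclideanSpace.proj j

/-- `θ` is weakly closed up to `P`: it is a local `L²` limit of smooth forms with exterior derivative `P` -/
def WkD {n : ℕ} (g : E n → Bl n) (P : E n → Bl n) (θ : E n → Dl n) : Prop :=
  ∀ K, IsCompact K → ∀ κ > 0, ∃ θ' : E n → Dl n, ContDiff ℝ ∞ θ' ∧
    (∀ x u v, dd θ' x u v = P x u v) ∧
    ∫ x in K, ip g x (θ' x - θ x) (θ' x - θ x) * vol g x ≤ κ

/-- FRA (150 lines). The exterior derivative of the mollification. Hypotheses: StUt StIna StMos.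
PROOF. (1) By UT, on a compact set `ip g x a a * vol g x ≥ c ‖a‖²`, so `WkD` gives smooth `θ_k` with `dd θ_k = P` and
`∫_K |(θ_k - θ)(ee j)|² → 0` for every `j` and compact `K`. (2) For a `C¹` function `u`: `fderiv (mo u) x v = mo (D_v u) x`
(differentiation under the integral, or MOS and integration by parts). So `dd (mf θ_k) x (ee i) (ee j) = mo (P · (ee i) (ee j)) x`.
(3) For fixed `ε, x`: `|fderiv (mo (u)) x v| ≤ C_ε (∫_{closedBall x ε} u²)^{1/2}` (MOS, Cauchy-Schwarz), so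
`dd (mf θ) x (ee i) (ee j) = lim_k dd (mf θ_k) x (ee i) (ee j) = mo (P · (ee i) (ee j)) x`. (4) `P` is uniformly continuous near
`K`, so this tends to `P x (ee i) (ee j)` uniformly on `K` as `ε → 0`, and `nB g x B ≤ C max |B(ee i)(ee j)|²` on `K`. -/
def StFra : Prop := ∀ (n : ℕ) (g : E n → Bl n) (Γ : E n → Bm n), IsMet g → IsChr g Γ →
  ∀ ρ : E n → ℝ, Mol ρ → ∀ (P : E n → Bl n) (θ : E n → Dl n), Continuous P → L2f θ → WkD g P θ →
  ∀ K, IsCompact K → ∀ κ > 0, ∀ᶠ ε : ℝ in 𝓝[>] 0, ContDiff ℝ ∞ (mf ρ ε θ) ∧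
    ∀ x ∈ K, nB g x (fun u v => dd (mf ρ ε θ) x u v - P x u v) ≤ κ

/-- DLF (80 lines). The weighted divergence in divergence form. Hypotheses: StChr StShp StDlv.
PROOF. `X y = shp g y (θ y)`, `X_i = ∑ j, gi i j θ(ee j)`; by SHP `trg g x (cf Γ θ x) = ∑ i, (DX(ee i) + Γ(ee i,X)) i`
(because `∑ j, gi i j * g(z, ee j) = z i`) and `ip(Df,θ) = Df(X)`; the derivative of `e^{-f} vol` in the direction `ee i` is
`e^{-f} vol (- Df(ee i) + ∑ k, (Γ(ee i,ee k)) k)` (DLV). Product rule. -/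
def StDlf : Prop := ∀ (n : ℕ) (g : E n → Bl n) (Γ : E n → Bm n), IsMet g → IsChr g Γ →
  ∀ f : E n → ℝ, ContDiff ℝ ∞ f → ∀ θ : E n → Dl n, ContDiff ℝ 1 θ → ∀ x,
    dl g Γ f θ x * (Real.exp (-f x) * vol g x) =
      ∑ i, ∑ j, fderiv ℝ (fun y => (Real.exp (-f y) * vol g y * gi g y i j) * θ y (ee j)) x (ee i)

/-- FRB (180 lines). The weighted divergence of the mollification tends to zero. Hypotheses: StChr StShp StDlv StUt
StMos StFrc StDlf.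
PROOF. `a_ij = e^{-f} vol gi i j` (smooth), `W = e^{-f} vol`, `θ_j = θ(ee j)`. By DLF
`dl(mf θ) W = ∑ ij, fderiv (a_ij · mo θ_j) (ee i) = ∑ ij r_ij + ∑ ij ∫ Dρ(y)(ee i) (a_ij θ_j)(x-εy)/ε dy` with `∫_K r_ij² → 0` by
FRC. The last sum is zero: let `u(z) = ρ((x-z)/ε)` (`Cc u`), `Du(z)(ee i) = -(1/ε) Dρ((x-z)/ε)(ee i)`; by hypothesis
`0 = ∫ ip(θ,Du) W dz = ∑ ij ∫ a_ij(z) θ_j(z) Du(z)(ee i) dz`, substitute `z = x - εy` (all terms are integrable). Finally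
`(dl(mf θ))² W = (∑ r_ij)²/W ≤ C ∑ r_ij²` on `K`. -/
def StFrb : Prop := ∀ (n : ℕ) (g : E n → Bl n) (Γ : E n → Bm n), IsMet g → IsChr g Γ →
  ∀ ρ : E n → ℝ, Mol ρ → ∀ f : E n → ℝ, ContDiff ℝ ∞ f → ∀ θ : E n → Dl n, L2f θ →
  (∀ u, Cc u → ∫ x, ip g x (θ x) (fderiv ℝ u x) * (Real.exp (-f x) * vol g x) = 0) →
  ∀ K, IsCompact K → Tendsto (fun ε : ℝ =>
    ∫ x in K, dl g Γ f (mf ρ ε θ) x ^ 2 * (Real.exp (-f x) * vol g x)) (𝓝[>] 0) (𝓝 0)

/-- `θ` has smooth approximations with exterior derivative almost `P` and weighted divergence almost `0` -/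
def Apx {n : ℕ} (g : E n → Bl n) (Γ : E n → Bm n) (f : E n → ℝ) (P : E n → Bl n)
    (θ : E n → Dl n) : Prop :=
  ∀ K, IsCompact K → ∀ κ > 0, ∃ θ' : E n → Dl n, ContDiff ℝ ∞ θ' ∧
    ∫ x in K, ip g x (θ' x - θ x) (θ' x - θ x) * vol g x ≤ κ ∧
    (∀ x ∈ K, nB g x (fun u v => dd θ' x u v - P x u v) ≤ κ) ∧
    ∫ x in K, dl g Γ f θ' x ^ 2 * (Real.exp (-f x) * vol g x) ≤ κ

/-- FR (80 lines). Smooth approximation. Hypotheses: StUt StIna StSma StMoc StFra StFrb.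
PROOF. Take a mollifier (SMA) and `θ' = mf ρ ε θ`, `ε` small. `ip g x a a * vol g x ≤ C ∑ j, (a (ee j))²` on `K`, so the first
claim follows from MOC for the components; the others are FRA, FRB. -/
def StFr : Prop := ∀ (n : ℕ) (g : E n → Bl n) (Γ : E n → Bm n), IsMet g → IsChr g Γ →
  ∀ f : E n → ℝ, ContDiff ℝ ∞ f → ∀ (P : E n → Bl n) (θ : E n → Dl n), Continuous P → L2f θ →
  WkD g P θ →
  (∀ u, Cc u → ∫ x, ip g x (θ x) (fderiv ℝ u x) * (Real.exp (-f x) * vol g x) = 0) →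
  Apx g Γ f P θ

/-- cut-off functions with small gradient -/
def Cut {n : ℕ} (g : E n → Bl n) : Prop := ∀ K : Set (E n), IsCompact K → ∀ κ > 0,
  ∃ χ : E n → ℝ, Cc χ ∧ (∀ x, 0 ≤ χ x ∧ χ x ≤ 1) ∧ (∀ x ∈ K, χ x = 1) ∧
    ∀ x v, |fderiv ℝ χ x v| ≤ κ * nr g x v

/-- LIM (220 lines). The limit of the Bochner inequality. Hypotheses: StChr StShp StUt StIna StInb StBo.
PROOF. `W = e^{-f} vol ≤ vol` as `f ≥ 0`, `S = ∫ (nB P/2) W`, `T = ∫ |θ|² W`. Let `s ∈ (0,1)`, `κ₁ > 0`, `χ` the cut-off for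
`K, κ₁`, `L = K ∪ tsupport χ`, `κ₂ > 0`, `θ'` from `Apx` for `L, κ₂`, `η = χ θ'`. BO for `η`. On `K`: `χ = 1` is maximal, so `dχ = 0`
and `cf η = cf θ'`. On `L`: `dd η(u,v) = χ dd θ'(u,v) + (dχ(u)θ'(v) - dχ(v)θ'(u))`, `dl η = χ dl θ' + ip(dχ,θ')`, `|dχ|² ≤ κ₁²`
(INA (7)), so by INB (2), (4) `nB(dd η)/2 ≤ (1+s) nB(dd θ')/2 + (1+1/s) κ₁²|θ'|²`, `nB(dd θ') ≤ (1+s) nB P + (1+1/s) κ₂`,
`(dl η)² ≤ 2 (dl θ')² + 2κ₁²|θ'|²`, and `∫_L |θ'|² W ≤ (1+s)T + (1+1/s)κ₂`. So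
`∫_K N2 θ' W ≤ ε((1+s)T + (1+1/s)κ₂) + (1+s)² S + (1+s)(1+1/s)κ₂ ∫_L vol + ((1+1/s)+2)κ₁²(2T + (1+1/s)κ₂) + 2κ₂`. Choose `s`, then
`κ₁` (then `χ, L`), then `κ₂` small. Integrability: `IntegrableOn` of continuous functions on compact sets; of `|θ' - θ|² vol`
on `K` by `L2f`. -/
def StLim : Prop := ∀ (n : ℕ) (g : E n → Bl n) (Γ : E n → Bm n), IsMet g → IsChr g Γ → Sec g Γ →
  Cut g → ∀ (f : E n → ℝ) (ε : ℝ), ContDiff ℝ ∞ f → (∀ x, 0 ≤ f x) → 0 ≤ ε →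
  (∀ x v, -(ε * g x v v) ≤ Hs Γ f x v v) → ∀ (P : E n → Bl n) (θ : E n → Dl n), Continuous P →
  L2f θ → Apx g Γ f P θ →
  Integrable (fun x => nB g x (fun u v => P x u v) * (Real.exp (-f x) * vol g x)) →
  Integrable (fun x => ip g x (θ x) (θ x) * (Real.exp (-f x) * vol g x)) →
  ∀ K, IsCompact K → ∀ κ > 0, ∃ θ' : E n → Dl n, ContDiff ℝ ∞ θ' ∧
    ∫ x in K, ip g x (θ' x - θ x) (θ' x - θ x) * vol g x ≤ κ ∧
    ∫ x in K, N2 g Γ θ' x * (Real.exp (-f x) * vol g x) ≤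
      (∫ x, nB g x (fun u v => P x u v) / 2 * (Real.exp (-f x) * vol g x)) +
      ε * (∫ x, ip g x (θ x) (θ x) * (Real.exp (-f x) * vol g x)) + κ

/-! ## Poincare lemma, weights, cut-offs -/

/-- PL (150 lines). Poincare lemma for `2`-forms.
PROOF. `θ x v = ∫_0^1 t P(t x)(x)(v) dt` (as an element of `Dl n`). Smoothness: a general lemma `x ↦ ∫_0^1 F(x,t) dt` is `C^k`
for `F` of class `C^k` on `E n × ℝ` (induction on `k` for all normed target spaces: `hasFDerivAt_integral_of_dominated_of_fderiv_le`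
and `contDiff_succ_iff_fderiv`). `D_uθ(v) = ∫ (t² D_uP(tx)(x,v) + t P(tx)(u,v)) dt`, so `dd θ(u,v) =
∫ (2t P(tx)(u,v) + t²(D_uP(tx)(x,v) - D_vP(tx)(x,u))) dt`; closedness with `w = x` and antisymmetry:
`D_uP(x,v) - D_vP(x,u) = D_xP(u,v)`. The integrand is `d/dt (t² P(tx)(u,v))`. -/
def StPl : Prop := ∀ (n : ℕ) (P : E n → Bl n), ContDiff ℝ ∞ P → (∀ x u v, P x u v = -P x v u) →
  (∀ x u v w, fderiv ℝ P x u v w + fderiv ℝ P x v w u + fderiv ℝ P x w u v = 0) →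
  ∃ θ : E n → Dl n, ContDiff ℝ ∞ θ ∧ ∀ x u v, dd θ x u v = P x u v

/-- CVX (100 lines). Fast growing smooth convex functions.
PROOF. `η s = ∫_0^s Real.smoothTransition` is smooth, `0` for `s ≤ 0`, `η' = smoothTransition` is nonnegative and
nondecreasing, `η'' ≥ 0`, `η 1 > 0`. `F s = ∑_j a_j η(s - R - j)`, `a_j = max (A j) 0 / η 1`: locally finite sum (for `s < R + m`
only `j < m`), all properties are inherited from the terms; `F(R+1+j) ≥ a_j η(1) ≥ A j`. -/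
def StCvx : Prop := ∀ (R : ℝ) (A : ℕ → ℝ), ∃ F : ℝ → ℝ, ContDiff ℝ ∞ F ∧ (∀ s, 0 ≤ F s) ∧
  (∀ s ≤ R, F s = 0) ∧ Monotone F ∧ Monotone (deriv F) ∧ (∀ s, 0 ≤ deriv F s) ∧
  (∀ s, 0 ≤ deriv (deriv F) s) ∧ ∀ j : ℕ, A j ≤ F (R + 1 + j)

/-- WT (150 lines). Weights: `T` does not depend on `ε`. Hypotheses: StMet StDlc StUt StSm StCvx.
PROOF. `b` is continuous (Lipschitz for `d`, DLC). `V_j = ∫_{b ≤ R+4+j} h vol` (compact set). Take `F` from CVX with `R+1` in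
place of `R` and `A_j = log(1+V_j) + j`, so `F(R+2+j) ≥ A_j`. `T = ∫ h e^{-F(b-1)} vol < ∞`: on
`R+2+j ≤ b-1 < R+3+j` the integrand is `≤ h vol e^{-A_j}`, whose integral there is `≤ e^{-j}`, and `{b ≤ R+3}` is compact. Given
`ε`, take `b'` from SM with `e x = ε/(1 + F'(b x + 1))` and `f = F ∘ b'`. `f = 0` if `b ≤ R` as `b' ≤ R+1`. `e^{-f} ≤ e^{-F(b-1)}`
as `b' ≥ b-1`. `Hs Γ f x v v = F'(b' x) Hs Γ b' x v v + F''(b' x) (Db'(v))² ≥ -F'(b x+1) e(x) g(v,v) ≥ -ε g(v,v)`. -/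
def StWt : Prop := ∀ (n : ℕ) (g : E n → Bl n) (Γ : E n → Bm n), IsMet g → IsChr g Γ →
  ∀ (p : E n) (b : E n → ℝ) (κ r0 : ℝ), Bus g Γ p b κ r0 → ∀ (R : ℝ) (h : E n → ℝ),
  Continuous h → (∀ x, 0 ≤ h x) → ∃ T : ℝ, ∀ ε > 0, ∃ f : E n → ℝ, ContDiff ℝ ∞ f ∧
    (∀ x, 0 ≤ f x) ∧ (∀ x, b x ≤ R → f x = 0) ∧ (∀ x v, -(ε * g x v v) ≤ Hs Γ f x v v) ∧
    Integrable (fun x => h x * (Real.exp (-f x) * vol g x)) ∧
    ∫ x, h x * (Real.exp (-f x) * vol g x) ≤ T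

/-- CUT (120 lines). Cut-off functions. Hypotheses: StMet StDlc StSm.
PROOF. `b'` from SM with `e = 1`. `ψ` smooth, `0 ≤ ψ ≤ 1`, `ψ = 1` on `(-∞,5/8]`, `ψ = 0` on `[7/8,∞)`
(`1 - smoothTransition(4(s-5/8))`), `|ψ'| ≤ C/2` (continuous with compact support). `χ x = ψ(b' x/R)`. If `b x ≤ R/2` then
`b' x ≤ R/2+1 < 5R/8`; if `R ≤ b x` then `b' x ≥ R-1 > 7R/8`. `supp χ ⊆ {b' ≤ 7R/8} ⊆ {b ≤ 7R/8+1}` is compact. `|Dχ(v)| ≤
(C/2)(1/R) 2|v|`. `Cut g`: given `K, κ` choose `R ≥ 9` with `K ⊆ {b ≤ R/2}` (`b` is continuous) and `C/R ≤ κ`. -/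
def StCut : Prop := ∀ (n : ℕ) (g : E n → Bl n) (Γ : E n → Bm n), IsMet g → IsChr g Γ →
  ∀ (p : E n) (b : E n → ℝ) (κ r0 : ℝ), Bus g Γ p b κ r0 → Cut g ∧
  ∃ C > 0, ∀ R : ℝ, 9 ≤ R → ∃ χ : E n → ℝ, Cc χ ∧ (∀ x, 0 ≤ χ x ∧ χ x ≤ 1) ∧
    (∀ x, b x ≤ R / 2 → χ x = 1 ∧ fderiv ℝ χ x = 0) ∧
    (∀ x, R ≤ b x → χ x = 0 ∧ fderiv ℝ χ x = 0) ∧
    ∀ x v, |fderiv ℝ χ x v| ≤ C / R * nr g x v

/-! ## Harmonic `2`-forms and `1`-forms -/

/-- raised components of a bilinear form -/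
def up {n : ℕ} (g : E n → Bl n) (P : E n → Bl n) (x : E n) (i j : Fin n) : ℝ :=
  ∑ a, ∑ b, gi g x i a * gi g x j b * P x (ee a) (ee b)

/-- `P` is an `L²` harmonic `2`-form -/
structure H2 {n : ℕ} (g : E n → Bl n) (P : E n → Bl n) : Prop where
  smooth : ContDiff ℝ ∞ P
  anti : ∀ x u v, P x u v = -P x v u
  closed : ∀ x u v w, fderiv ℝ P x u v w + fderiv ℝ P x v w u + fderiv ℝ P x w u v = 0
  cocl : ∀ x i, ∑ j, fderiv ℝ (fun y => vol g y * up g P y i j) x (ee j) = 0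
  int : Integrable (fun x => nB g x (fun u v => P x u v) * vol g x)

/-- HL (80 lines). Linear combinations of harmonic `2`-forms. Hypotheses: StShp StDlv StUt StInb.
PROOF. `vol g y * up g P y i j` is smooth in `y` (SHP, DLV) and linear in `P`, so `closed`, `cocl` pass to sums. With
`s = ∑ i, c i ^ 2`: if `s = 0` the sum is zero, otherwise `nB (∑ c_i P_i) = s nB (∑ (c_i/√s) P_i) ≤ s ∑ nB P_i` by INB (3), (6), and
the left side is continuous (UT), so integrability with `vol` follows by domination. -/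
def StHl : Prop := ∀ (n : ℕ) (g : E n → Bl n) (Γ : E n → Bm n), IsMet g → IsChr g Γ →
  ∀ (m : ℕ) (c : Fin m → ℝ) (P : Fin m → E n → Bl n), (∀ i, H2 g (P i)) →
    H2 g (fun x => ∑ i, c i • P i x)

/-- PAI (150 lines). Integration by parts. Hypotheses: StChr StShp StDlv StUt.
PROOF. `U_ij = up g P · i j` is smooth and antisymmetric, `nB g x P = ∑ ij, U_ij P(ee i)(ee j)` and
`iB g x P (θ ⊗ dχ) = ∑ ij, U_ij θ(ee i) Dχ(ee j)` (reordering finite sums). `P(ee i)(ee j) = D_iθ_j - D_jθ_i`, so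
`nB P/2 = - ∑ ij, U_ij D_jθ_i`. Then `∑ ij, θ_i D_j(χ vol U_ij) = vol ∑ ij, U_ij θ_i D_jχ + χ ∑ i, θ_i ∑ j, D_j(vol U_ij)`, the last
term vanishes by `cocl`, and `∫ D_j(θ_i χ vol U_ij) = 0` for each `i, j` (compact support). -/
def StPai : Prop := ∀ (n : ℕ) (g : E n → Bl n) (Γ : E n → Bm n), IsMet g → IsChr g Γ →
  ∀ P : E n → Bl n, H2 g P → ∀ θ : E n → Dl n, ContDiff ℝ ∞ θ →
  (∀ x u v, dd θ x u v = P x u v) → ∀ χ, Cc χ →
    ∫ x, χ x * (nB g x (fun u v => P x u v) / 2) * vol g x =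
      ∫ x, iB g x (fun u v => P x u v) (fun u v => θ x u * fderiv ℝ χ x v) * vol g x

/-- THE (200 lines). A primitive with small covariant derivative. Hypotheses: StChr StUt StIna StInb StHp StFr StLim
StPl StWt StCut.
PROOF. `θ₀` from PL, `h = ip θ₀ θ₀` (continuous), `T` from WT (`R`, `h`; `T ≥ 0`), `ε = 1/(T+1)`, `f` from WT, `w = e^{-f} vol`. HP
gives `θ`: `∫ |θ|² w ≤ T`, `L2f θ` (locally `ip g x a a w ≥ c‖a‖²`), weakly coclosed, and `WkD g P θ` (`θ₀ + du` is smooth,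
`dd (du) = 0` by symmetry of the second derivative, on a compact set `vol ≤ C w`). FR, then LIM (`Cut g` from CUT) with
`K = {b ≤ R}`, where `w = vol`: `θ'` with `∫_K |θ'-θ|² vol ≤ κ/8`, `∫_K N2 θ' vol ≤ ∫ (nB P/2) w + εT + κ ≤ ∫ (nB P/2) vol + 1 + κ`.
Take `θ'' = θ₀ + du` with `∫_K |θ''-θ|² vol ≤ κ/8`; `|θ'-θ''|² ≤ 2|θ'-θ|² + 2|θ''-θ|²`. -/
def StThe : Prop := ∀ (n : ℕ) (g : E n → Bl n) (Γ : E n → Bm n), IsMet g → IsChr g Γ → Sec g Γ →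
  ∀ (p : E n) (b : E n → ℝ) (κ₀ r0 : ℝ), Bus g Γ p b κ₀ r0 → ∀ P : E n → Bl n, H2 g P →
  ∀ R κ : ℝ, 0 < κ → ∃ θ' θ'' : E n → Dl n, ContDiff ℝ ∞ θ' ∧ ContDiff ℝ ∞ θ'' ∧
    (∀ x u v, dd θ'' x u v = P x u v) ∧
    ∫ x in {x | b x ≤ R}, ip g x (θ' x - θ'' x) (θ' x - θ'' x) * vol g x ≤ κ ∧
    ∫ x in {x | b x ≤ R}, N2 g Γ θ' x * vol g x ≤
      (∫ x, nB g x (fun u v => P x u v) / 2 * vol g x) + 1 + κ

/-- KEY (250 lines). Main estimate. Hypotheses: StUt StMet StDlc StIna StInb StBus StCvd StRk StCut StPai StHl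
StThe.
PROOF. `Bus g Γ p b κ₀ r0` from BUS. `q = ∑ i, nB P_i` (integrable with `vol`), `t(R) = ∫_{b ≥ R/2} q vol → 0` as `R → ∞`. Let
`R ≥ 9`, `κ₀ r0 ≤ R`, `b p < R`, `K ⊆ {b ≤ R/2}`, `D = {b < R}`: open, nonempty, in a compact set, so `0 < mg D < ∞`, convex and
`Δ = 2R/κ₀` by CVD. THE with `κ = 1/(n+1)` for each `P_i`: `θ'_i, θ''_i`. RK for `θ'_i`: `c`. `∫_D |∑ c_i θ'_i|² vol ≤
2^n Δ² ∑ i (∫ (nB P_i/2) vol + 2)`, `∫_D |∑ c_i(θ'_i - θ''_i)|² vol ≤ ∑ i κ ≤ 1` (`ip(∑ c_i η_i) ≤ ∑ ip(η_i)`). So with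
`ζ = ∑ c_i θ''_i`: `∫_D |ζ|² vol ≤ C' R²`, `C'` independent of `R`. `P_c = ∑ c_i P_i` satisfies `H2` (HL) and `dd ζ = P_c`, `nB P_c ≤ q`.
PAI with `χ` from CUT and INB (7): `∫ χ (nB P_c/2) vol ≤ ∫_{D, b ≥ R/2} √(nB P_c) |ζ| (C/R) vol ≤ (C/R) √(t(R)) √(C' R²)
= C √(C' t(R))` (Cauchy-Schwarz; `|dχ| ≤ C/R` by INA (7)). So `∫_K nB P_c vol ≤ 2C √(C' t(R)) ≤ δ` for `R` large. -/
def StKey : Prop := ∀ (n : ℕ) (g : E n → Bl n) (Γ : E n → Bm n), 1 ≤ n → IsMet g → IsChr g Γ →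
  Cpl g → Sec g Γ → ∀ P : Fin (n + 1) → E n → Bl n, (∀ i, H2 g (P i)) →
  ∀ K : Set (E n), IsCompact K → ∀ δ > 0, ∃ c : Fin (n + 1) → ℝ, ∑ i, c i ^ 2 = 1 ∧
    ∫ x in K, nB g x (fun u v => ∑ i, c i * P i x u v) * vol g x ≤ δ

/-- MT (120 lines). `n+1` harmonic `2`-forms are linearly dependent. Hypotheses: StUt StInb StOnb StTr StKey.
PROOF. KEY for `K_m = closedBall 0 m`, `δ = 1/(m+1)`: unit vectors `c_m`. A subsequence converges to a unit vector `c`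
(compact sphere). `c ↦ ∫_K nB(∑ c_i P_i) vol` is continuous (a quadratic form in `c` with coefficients `∫_K iB(P_i,P_j) vol`), and
for fixed `K` its values at `c_m` are `≤ 1/(m+1)` for large `m`; so `∫_K nB(∑ c_i P_i) vol = 0` for every ball `K`; the
integrand is continuous and nonnegative, so it vanishes, and `nB = 0` implies that the bilinear form is zero (TR). -/
def StMt : Prop := ∀ (n : ℕ) (g : E n → Bl n) (Γ : E n → Bm n), 1 ≤ n → IsMet g → IsChr g Γ →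
  Cpl g → Sec g Γ → ∀ P : Fin (n + 1) → E n → Bl n, (∀ i, H2 g (P i)) →
  ∃ c : Fin (n + 1) → ℝ, ∑ i, c i ^ 2 = 1 ∧ ∀ x u v, ∑ i, c i * P i x u v = 0

/-- `θ` is an `L²` harmonic `1`-form -/
structure H1 {n : ℕ} (g : E n → Bl n) (Γ : E n → Bm n) (θ : E n → Dl n) : Prop where
  smooth : ContDiff ℝ ∞ θ
  closed : ∀ x u v, dd θ x u v = 0
  cocl : ∀ x, trg g x (cf Γ θ x) = 0
  int : Integrable (fun x => ip g x (θ x) (θ x) * vol g x)

/-- ONE (150 lines). `L²` harmonic `1`-forms are parallel. Hypotheses: StChr StUt StIna StInb StBo.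
PROOF. BO with `f = 0`, `ε = 0` for `χθ`, `χ` from `Cut g` for `K, κ`: on `K` `cf (χθ) = cf θ` (`χ = 1` is maximal, `dχ = 0`);
`dd(χθ)(u,v) = dχ(u)θ(v) - dχ(v)θ(u)`, `dl(χθ) = ip(dχ,θ)`. So `∫_K N2 θ vol ≤ ∫ (|dχ|²|θ|² + |dχ|²|θ|²) vol ≤ 2κ² ∫ |θ|² vol`.
Let `κ → 0`: `∫_K N2 θ vol = 0` for all compact `K`, the integrand is continuous, so `N2 θ = 0` and `cf = 0` (INA (8) with `B = cB`:
`ip (cB u) (cB u) ≤ 0`, INA (3)). -/
def StOne : Prop := ∀ (n : ℕ) (g : E n → Bl n) (Γ : E n → Bm n), IsMet g → IsChr g Γ → Sec g Γ →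
  Cut g → ∀ θ : E n → Dl n, H1 g Γ θ → ∀ x u v, cf Γ θ x u v = 0

/-- MO (80 lines). `n+1` harmonic `1`-forms are linearly dependent. Hypotheses: StIna StNa StBus StCut StOne.
PROOF. The `n+1` covectors `θ i 0` in the `n`-dimensional space `Dl n` are linearly dependent: `∑ c i² = 1`,
`∑ c i • θ i 0 = 0`. `ζ = ∑ c i • θ i` is parallel (ONE; `cf` is linear), so by NA the function `ip(ζ,ζ)` has derivative zero,
is constant and `= 0`; so `ζ = 0` (INA (3)). -/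
def StMo : Prop := ∀ (n : ℕ) (g : E n → Bl n) (Γ : E n → Bm n), 1 ≤ n → IsMet g → IsChr g Γ →
  Cpl g → Sec g Γ → ∀ θ : Fin (n + 1) → E n → Dl n, (∀ i, H1 g Γ (θ i)) →
  ∃ c : Fin (n + 1) → ℝ, ∑ i, c i ^ 2 = 1 ∧ ∀ x, ∑ i, c i • θ i x = 0

end Helper62.LH
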