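import Pool.Agent.Helper62.LH.StS

/-!
# Project LH: assembly
-/

set_option autoImplicit false
set_option maxSynthPendingDepth 3

open Set Filter Topology MeasureTheory
open scoped ContDiff ENNReal

noncomputable section

namespace Helper62.LH

/-- fields of alternating `k`-forms -/
abbrev Fm (n k : ℕ) : Type := E n → E n [⋀^Fin k]→L[ℝ] ℝ

variable {n k l : ℕ}

theorem nsq_frame (hCfr : StCfr) {g : E n → Bl n} {x : E n} {f : Fin n → E n} (hf : Onb g x f)
    (α : E n [⋀^Fin k]→L[ℝ] ℝ) :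
    nsq g k x α = (∑ I : Fin k → Fin n, α (fun a => f (I a)) ^ 2) / k.factorial := by
  have h := hCfr n g x f hf k α.toMultilinearMap α.toMultilinearMap
  have h2 : ∀ v : Fin k → E n, α.toMultilinearMap v = α v := fun v => rfl
  simp only [h2] at h
  unfold nsq
  rw [h]
  congr 1
  exact Finset.sum_congr rfl fun I _ => by ring

theorem nsq_nonneg (hOnb : StOnb) (hCfr : StCfr) {g : E n → Bl n} (hg : IsMet g) (x : E n)
    (α : E n [⋀^Fin k]→L[ℝ] ℝ) : 0 ≤ nsq g k x α := by
  obtain ⟨f, hf⟩ := hOnb n g hg x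
  rw [nsq_frame hCfr hf]
  positivity

theorem nsq_comb (hOnb : StOnb) (hCfr : StCfr) {g : E n → Bl n} (hg : IsMet g) (x : E n)
    (α β : E n [⋀^Fin k]→L[ℝ] ℝ) (a b : ℝ) :
    nsq g k x (a • α + b • β) ≤ 2 * a ^ 2 * nsq g k x α + 2 * b ^ 2 * nsq g k x β := by
  obtain ⟨f, hf⟩ := hOnb n g hg x
  rw [nsq_frame hCfr hf, nsq_frame hCfr hf, nsq_frame hCfr hf, mul_div_assoc', mul_div_assoc',
    ← add_div]
  apply div_le_div_of_nonneg_right _ (by positivity)
  rw [Finset.mul_sum, Finset.mul_sum, ← Finset.sum_add_distrib]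
  apply Finset.sum_le_sum
  intro I _
  have h1 : (a • α + b • β) (fun c => f (I c)) = a * α (fun c => f (I c)) +
      b * β (fun c => f (I c)) := rfl
  rw [h1]
  nlinarith [sq_nonneg (a * α (fun c => f (I c)) - b * β (fun c => f (I c)))]

theorem nsq_cont {g : E n → Bl n} (hgi : ∀ i j, ContDiff ℝ ∞ (fun x => gi g x i j))
    {φ : Fm n k} (hφ : Continuous φ) : Continuous (fun x => nsq g k x (φ x)) := by
  unfold nsq
  apply Continuous.div_const
  apply continuous_finsetSum _ fun I _ => ?_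
  apply continuous_finsetSum _ fun J _ => ?_
  have h1 : ∀ v : Fin k → E n, Continuous (fun x => φ x v) := fun v =>
    (ContinuousAlternatingMap.apply ℝ (E n) ℝ v).continuous.comp hφ
  refine Continuous.mul ?_ ((h1 _).mul (h1 _))
  exact continuous_finsetProd _ fun a _ => (hgi _ _).continuous

theorem star_comb {h : k + l = n} {g : E n → Bl n} {φ ψ : Fm n k} {τ σ : Fm n l}
    (h1 : IsStar h g φ τ) (h2 : IsStar h g ψ σ) (a b : ℝ) :
    IsStar h g (fun x => a • φ x + b • ψ x) (fun x => a • τ x + b • σ x) := by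
  intro x w
  have e1 : (a • τ x + b • σ x) w = a * τ x w + b * σ x w := rfl
  rw [e1, h1 x w, h2 x w]
  have e2 : ∀ v, (a • φ x + b • ψ x) v = a * φ x v + b * ψ x v := fun v => rfl
  simp only [e2]
  rw [mul_left_comm a, mul_left_comm b, ← mul_add]
  congr 1
  rw [Finset.mul_sum, Finset.mul_sum, ← Finset.sum_add_distrib]
  refine Finset.sum_congr rfl fun I _ => ?_
  rw [Finset.mul_sum, Finset.mul_sum, ← Finset.sum_add_distrib]
  refine Finset.sum_congr rfl fun J _ => ?_
  ring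

theorem star_zero {h : k + l = n} {g : E n → Bl n} {φ : Fm n k} {τ : Fm n l}
    (h1 : IsStar h g φ τ) (h0 : φ = 0) : τ = 0 := by
  funext x
  ext w
  rw [h1 x w, h0]
  simp

theorem star_sum {h : k + l = n} {g : E n → Bl n} {m : ℕ} {φ : Fin m → Fm n k}
    {τ : Fin m → Fm n l} (h1 : ∀ i, IsStar h g (φ i) (τ i)) (c : Fin m → ℝ) :
    IsStar h g (∑ i, c i • φ i) (∑ i, c i • τ i) := by
  have key : ∀ s : Finset (Fin m), IsStar h g (∑ i ∈ s, c i • φ i) (∑ i ∈ s, c i • τ i) := by
    intro s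
    induction s using Finset.induction_on with
    | empty =>
      intro x w
      simp
    | insert i s hi ih =>
      rw [Finset.sum_insert hi, Finset.sum_insert hi]
      have := star_comb (h1 i) ih (c i) 1
      intro x w
      have h3 := this x w
      simp only [one_smul] at h3
      exact h3
  exact key _

theorem harm_comb (hOnb : StOnb) (hCfr : StCfr) (hShp : StShp) (hDlv : StDlv)
    {h : k + l = n} {g : E n → Bl n} {Γ : E n → Bm n} (hg : IsMet g) (hΓ : IsChr g Γ)
    {φ ψ : Fm n k} (h1 : Harm h g φ) (h2 : Harm h g ψ) (a b : ℝ) :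
    Harm h g (a • φ + b • ψ) := by
  have hd : ∀ {m : ℕ} {φ : Fm n m}, ContDiff ℝ ∞ φ → ∀ x, DifferentiableAt ℝ φ x :=
    fun hφ x => (hφ.differentiable (by simp)).differentiableAt
  obtain ⟨τ, hτ, sτ, cτ⟩ := h1.coclosed
  obtain ⟨σ, hσ, sσ, cσ⟩ := h2.coclosed
  have hext : ∀ {m : ℕ} {φ ψ : Fm n m}, ContDiff ℝ ∞ φ → ContDiff ℝ ∞ ψ →
      (∀ x, extDeriv φ x = 0) → (∀ x, extDeriv ψ x = 0) →
      ∀ x, extDeriv (a • φ + b • ψ) x = 0 := by
    intro m φ ψ hφ hψ h1 h2 x
    rw [extDeriv_add ((hd hφ x).const_smul a) ((hd hψ x).const_smul b), extDeriv_smul,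
      extDeriv_smul, h1, h2, smul_zero, smul_zero, add_zero]
  have hsm : ContDiff ℝ ∞ (a • φ + b • ψ) := (h1.smooth.const_smul a).add (h2.smooth.const_smul b)
  refine ⟨hsm, hext h1.smooth h2.smooth h1.closed h2.closed, ⟨a • τ + b • σ,
    (hτ.const_smul a).add (hσ.const_smul b), ?_, hext hτ hσ cτ cσ⟩, ?_⟩
  · exact star_comb sτ sσ a b
  · obtain ⟨-, -, hgi, -⟩ := hShp n g Γ hg hΓ
    obtain ⟨hv, hv0, -⟩ := hDlv n g Γ hg hΓ
    have hc : Continuous (fun x => nsq g k x ((a • φ + b • ψ) x) * vol g x) :=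
      (nsq_cont hgi hsm.continuous).mul hv.continuous
    refine Integrable.mono' ((h1.int.const_mul (2 * a ^ 2)).add (h2.int.const_mul (2 * b ^ 2)))
      hc.aestronglyMeasurable ?_
    refine Eventually.of_forall fun x => ?_
    rw [Real.norm_of_nonneg (mul_nonneg (nsq_nonneg hOnb hCfr hg _ _) (hv0 x).le)]
    have := nsq_comb hOnb hCfr hg x (φ x) (ψ x) a b
    have h3 := mul_le_mul_of_nonneg_right this (hv0 x).le
    simp only [Pi.add_apply] at *
    calc _ ≤ _ := h3
      _ = _ := by ring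

theorem harm_zero {h : k + l = n} {g : E n → Bl n} : Harm h g (0 : Fm n k) := by
  have h0 : ∀ {m : ℕ}, ∀ x, extDeriv (0 : Fm n m) x = 0 := by
    intro m x
    have : (0 : Fm n m) = (0 : ℝ) • (0 : Fm n m) := by simp
    rw [this, extDeriv_smul, zero_smul]
  refine ⟨contDiff_const, h0, ⟨0, contDiff_const, ?_, h0⟩, ?_⟩
  · intro x w
    simp
  · have : (fun x => nsq g k x ((0 : Fm n k) x) * vol g x) = fun _ => 0 := by
      funext x
      simp [nsq]
    rw [this]
    exact integrable_zero _ _ _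

/-- the space of `L²` harmonic forms -/
theorem exists_space (hOnb : StOnb) (hCfr : StCfr) (hShp : StShp) (hDlv : StDlv)
    (h : k + l = n) {g : E n → Bl n} {Γ : E n → Bm n} (hg : IsMet g) (hΓ : IsChr g Γ) :
    ∃ H : Submodule ℝ (Fm n k), ∀ φ, φ ∈ H ↔ Harm h g φ := by
  refine ⟨⟨⟨⟨{φ | Harm h g φ}, ?_⟩, harm_zero⟩, ?_⟩, fun φ => Iff.rfl⟩
  · intro φ ψ h1 h2
    have := harm_comb hOnb hCfr hShp hDlv hg hΓ h1 h2 1 1
    rwa [one_smul, one_smul] at this
  · intro c φ h1
    have := harm_comb hOnb hCfr hShp hDlv hg hΓ h1 h1 c 0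
    rwa [zero_smul, add_zero] at this

/-- a subspace all of whose `N+1`-tuples are dependent -/
theorem finite_of_dep {V : Type*} [AddCommGroup V] [Module ℝ V] (H : Submodule ℝ V) (N : ℕ)
    (hd : ∀ φ : Fin (N + 1) → V, (∀ i, φ i ∈ H) → ∃ c : Fin (N + 1) → ℝ, c ≠ 0 ∧
      ∑ i, c i • φ i = 0) : Module.Finite ℝ H ∧ Module.finrank ℝ H ≤ N := by
  have hr : Module.rank ℝ H ≤ N := by
    apply rank_le
    intro s hs
    by_contra hlt
    push Not at hlt
    obtain ⟨t, hts, htc⟩ := Finset.exists_subset_card_eq (Nat.succ_le_of_lt hlt)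
    let e : Fin (N + 1) ≃ t := (Fintype.equivFinOfCardEq (by simpa using htc)).symm
    have hli : LinearIndependent ℝ (fun i : Fin (N + 1) => ((e i : H))) := by
      have h1 := LinearIndependent.comp hs (fun i : Fin (N + 1) => (⟨e i, hts (e i).2⟩ : s))
        (fun i j hij => e.injective (Subtype.ext (congrArg (fun z : s => (z : H)) hij)))
      exact h1
    obtain ⟨c, hc, hc0⟩ := hd (fun i => ((e i : H) : V)) (fun i => (e i : H).2)
    apply hc
    rw [Fintype.linearIndependent_iff] at hli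
    funext i
    apply hli c
    apply Subtype.ext
    simpa using hc0
  have hf : Module.Finite ℝ H := by
    rw [← Module.rank_lt_aleph0_iff]
    exact lt_of_le_of_lt hr (Cardinal.natCast_lt_aleph0)
  refine ⟨hf, ?_⟩
  have := Module.finrank_eq_rank ℝ H
  rw [← this] at hr
  exact_mod_cast hr

/-- any `N+1` elements of `S` are linearly dependent -/
def Dep {V : Type*} [AddCommGroup V] [Module ℝ V] (N : ℕ) (S : Set V) : Prop :=
  ∀ φ : Fin (N + 1) → V, (∀ i, φ i ∈ S) → ∃ c : Fin (N + 1) → ℝ, c ≠ 0 ∧ ∑ i, c i • φ i = 0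

theorem dep_zero (h : 0 + l = n) (g : E n → Bl n) : Dep 1 {φ : Fm n 0 | Harm h g φ} := by
  intro φ hφ
  have hconst : ∀ i x, φ i x = φ i 0 := by
    intro i x
    have hd : Differentiable ℝ (φ i) := (hφ i).smooth.differentiable (by simp)
    apply is_const_of_fderiv_eq_zero (𝕜 := ℝ) hd
    intro y
    ext v w
    have h1 := extDeriv_apply (hd y) (fun _ : Fin 1 => v)
    rw [(hφ i).closed y] at h1
    have h2 : ∀ i : Fin 1, (Fin.removeNth i (fun _ : Fin 1 => v) : Fin 0 → E n) = w := by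
      intro i
      funext j
      exact j.elim0
    simp only [Nat.reduceAdd] at h1
    simp only [h2] at h1
    have h3 : fderiv ℝ (fun x => φ i x w) y v = (fderiv ℝ (φ i) y v) w := by
      have h4 := ((ContinuousAlternatingMap.apply ℝ (E n) ℝ w).hasFDerivAt.comp y
        (hd y).hasFDerivAt).fderiv
      have h5 : (fun x => φ i x w) = (ContinuousAlternatingMap.apply ℝ (E n) ℝ w) ∘ φ i := rfl
      rw [h5, h4]
      rfl
    rw [← h3]
    simpa using h1.symm
  have hnl : ¬ LinearIndependent ℝ (fun i : Fin 2 => φ i 0 ![]) := by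
    intro hli
    have := hli.fintype_card_le_finrank
    simp at this
  obtain ⟨c, hc, i, hi⟩ := Fintype.not_linearIndependent_iff.1 hnl
  refine ⟨c, fun h0 => hi (by rw [h0]; rfl), ?_⟩
  funext x
  ext w
  have hw : w = ![] := Subsingleton.elim _ _
  rw [hw]
  simp only [Finset.sum_apply, Pi.smul_apply, Pi.zero_apply]
  simp only [hconst _ x]
  rw [Fin.sum_univ_two] at hc ⊢
  exact hc

theorem dep_one (hShp : StShp) (hDlv : StDlv) (hBlo : StBlo) (hCoo : StCoo)
    (hDlf : StDlf) (hMo : StMo) (h : 1 + l = n) {g : E n → Bl n} {Γ : E n → Bm n} (hg : IsMet g)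
    (hΓ : IsChr g Γ) (hc : Cpl g) (hs : Sec g Γ) : Dep n {φ : Fm n 1 | Harm h g φ} := by
  intro φ hφ
  choose θ hθs hθ hθd hθn using fun i => hBlo n g (φ i) (hφ i).smooth
  obtain ⟨-, -, hgi, -⟩ := hShp n g Γ hg hΓ
  obtain ⟨hv, hv0, -⟩ := hDlv n g Γ hg hΓ
  have hH : ∀ i, H1 g Γ (θ i) := by
    intro i
    refine ⟨hθs i, hθd i (hφ i).closed, ?_, ?_⟩
    · intro x
      obtain ⟨τ, hτ, sτ, cτ⟩ := (hφ i).coclosed
      have h1 := hCoo n l h g Γ hg hΓ (φ i) τ (θ i) (hθs i) (hθ i) hτ sτ cτ x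
      have h2 := hDlf n g Γ hg hΓ (fun _ => 0) contDiff_const (θ i)
        ((hθs i).of_le (by simp)) x
      have h3 : dl g Γ (fun _ => 0) (θ i) x = trg g x (cf Γ (θ i) x) := by
        unfold dl
        have : fderiv ℝ (fun _ : E n => (0 : ℝ)) x = 0 := by simp
        rw [this]
        simp [ip, trg]
      rw [h3] at h2
      simp only [neg_zero, Real.exp_zero, one_mul] at h2
      have h4 : ∀ a, fderiv ℝ (fun y => vol g y * ∑ j, gi g y a j * θ i y (ee j)) x (ee a) =
          ∑ j, fderiv ℝ (fun y => (vol g y * gi g y a j) * θ i y (ee j)) x (ee a) := by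
        intro a
        have e1 : (fun y => vol g y * ∑ j, gi g y a j * θ i y (ee j)) =
            fun y => ∑ j, (vol g y * gi g y a j) * θ i y (ee j) := by
          funext y
          rw [Finset.mul_sum]
          exact Finset.sum_congr rfl fun j _ => by ring
        rw [e1, fderiv_fun_sum]
        · simp
        · intro j _
          have hθj : ContDiff ℝ ∞ (fun y => θ i y (ee j)) :=
            (hθs i).clm_apply contDiff_const
          exact (((hv.mul (hgi a j)).mul hθj).differentiable (by simp)).differentiableAt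
      simp only [h4] at h1
      rw [h1] at h2
      rcases mul_eq_zero.1 h2 with h5 | h5
      · exact h5
      · exact absurd h5 (hv0 x).ne'
    · have := (hφ i).int
      simpa only [hθn] using this
  obtain ⟨c, hc1, hc0⟩ := hMo n g Γ (by omega) hg hΓ hc hs θ hH
  refine ⟨c, fun h0 => ?_, ?_⟩
  · rw [h0] at hc1
    simp at hc1
  · funext x
    ext w
    have hw : w = ![w 0] := by
      funext j
      fin_cases j
      rfl
    have h6 := congrArg (fun a : Dl n => a (w 0)) (hc0 x)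
    simp only [FunLike.coe_sum, Finset.sum_apply, FunLike.coe_smul,
      Pi.smul_apply, hθ, zero_apply] at h6
    rw [hw]
    simpa [Finset.sum_apply] using h6

theorem dep_two (hBlt : StBlt) (hCot : StCot) (hMt : StMt) (h : 2 + l = n) {g : E n → Bl n}
    {Γ : E n → Bm n} (hg : IsMet g) (hΓ : IsChr g Γ) (hc : Cpl g) (hs : Sec g Γ) :
    Dep n {φ : Fm n 2 | Harm h g φ} := by
  intro φ hφ
  choose P hPs hP hPa hPc hPn using fun i => hBlt n g (φ i) (hφ i).smooth
  have hH : ∀ i, H2 g (P i) := by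
    intro i
    refine ⟨hPs i, hPa i, hPc i (hφ i).closed, ?_, ?_⟩
    · obtain ⟨τ, hτ, sτ, cτ⟩ := (hφ i).coclosed
      exact hCot n l h g Γ hg hΓ (φ i) τ (P i) (hPs i) (hP i) hτ sτ cτ
    · have h1 := (hφ i).int.const_mul 2
      refine h1.congr (Eventually.of_forall fun x => ?_)
      simp only [hPn]
      ring
  obtain ⟨c, hc1, hc0⟩ := hMt n g Γ (by omega) hg hΓ hc hs P hH
  refine ⟨c, fun h0 => ?_, ?_⟩
  · rw [h0] at hc1
    simp at hc1
  · funext x
    ext w
    have hw : w = ![w 0, w 1] := by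
      funext j
      fin_cases j <;> rfl
    have h6 := hc0 x (w 0) (w 1)
    simp only [hP] at h6
    rw [hw]
    simpa [Finset.sum_apply] using h6

theorem dep_dual (hDua : StDua) (h : k + l = n) (h' : l + k = n) {g : E n → Bl n}
    (hg : IsMet g) {N : ℕ} (hd : Dep N {φ : Fm n l | Harm h' g φ}) :
    Dep N {φ : Fm n k | Harm h g φ} := by
  intro φ hφ
  obtain ⟨s, hs, hD⟩ := hDua n k l h h' g hg
  choose τ hτ sτ cτ using fun i => (hφ i).coclosed
  have hH : ∀ i, Harm h' g (τ i) := by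
    intro i
    obtain ⟨h1, h2⟩ := hD (φ i) (τ i) (sτ i)
    refine ⟨hτ i, cτ i, ⟨s • φ i, (hφ i).smooth.const_smul s, h2, ?_⟩, ?_⟩
    · intro x
      rw [extDeriv_smul, (hφ i).closed x, smul_zero]
    · simpa only [h1] using (hφ i).int
  obtain ⟨c, hc0, hc⟩ := hd τ hH
  refine ⟨c, hc0, ?_⟩
  have h3 := star_sum (fun i => (hD (φ i) (τ i) (sτ i)).2) c
  have h4 := star_zero h3 hc
  have h5 : ∑ i, c i • (fun x => s • φ i x) = s • ∑ i, c i • φ i := by
    rw [Finset.smul_sum]
    refine Finset.sum_congr rfl fun i _ => ?_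
    funext x
    simp only [Pi.smul_apply]
    rw [smul_comm]
  rw [h5] at h4
  have h6 : s • (s • ∑ i, c i • φ i) = ∑ i, c i • φ i := by
    rw [smul_smul, hs, one_smul]
  rw [← h6, h4, smul_zero]

/-- all degrees -/
theorem dep_all (hShp : StShp) (hDlv : StDlv) (hBlo : StBlo) (hCoo : StCoo)
    (hDlf : StDlf) (hMo : StMo) (hBlt : StBlt) (hCot : StCot) (hMt : StMt) (hDua : StDua)
    (h : k + l = n) {g : E n → Bl n} {Γ : E n → Bm n} (hg : IsMet g)
    (hΓ : IsChr g Γ) (hc : Cpl g) (hs : Sec g Γ) (hkl : k ≤ 2 ∨ l ≤ 2) :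
    Dep (if k = 0 ∨ l = 0 then 1 else n) {φ : Fm n k | Harm h g φ} := by
  have main : ∀ {k l : ℕ} (h : k + l = n), k ≤ 2 →
      Dep (if k = 0 then 1 else n) {φ : Fm n k | Harm h g φ} := by
    intro k l h hk
    interval_cases k
    · simpa using dep_zero h g
    · simpa using dep_one hShp hDlv hBlo hCoo hDlf hMo h hg hΓ hc hs
    · simpa using dep_two hBlt hCot hMt h hg hΓ hc hs
  have h' : l + k = n := by omega
  by_cases hk0 : k = 0
  · rw [if_pos (Or.inl hk0)]
    have := main h (by omega)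
    rwa [if_pos hk0] at this
  by_cases hl0 : l = 0
  · rw [if_pos (Or.inr hl0)]
    apply dep_dual hDua h h' hg
    have := main h' (by omega)
    rwa [if_pos hl0] at this
  rw [if_neg (by tauto)]
  rcases hkl with hk | hl
  · have := main h hk
    rwa [if_neg hk0] at this
  · apply dep_dual hDua h h' hg
    have := main h' hl
    rwa [if_neg hl0] at this

/-- main theorem -/
theorem fin_main (hShp : StShp) (hDlv : StDlv) (hBlo : StBlo) (hCoo : StCoo)
    (hDlf : StDlf) (hMo : StMo) (hBlt : StBlt) (hCot : StCot) (hMt : StMt) (hDua : StDua)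
    (hOnb : StOnb) (hCfr : StCfr)
    (n : ℕ) (g : E n → Bl n) (Γ : E n → Bm n) (hg : IsMet g)
    (hΓ : IsChr g Γ) (hc : Cpl g) (hs : Sec g Γ) (k l : ℕ) (h : k + l = n)
    (hkl : k ≤ 2 ∨ l ≤ 2) :
    ∃ H : Submodule ℝ (E n → E n [⋀^Fin k]→L[ℝ] ℝ), (∀ φ, φ ∈ H ↔ Harm h g φ) ∧
      Module.Finite ℝ H ∧ Module.finrank ℝ H ≤ if k = 0 ∨ l = 0 then 1 else n := by
  obtain ⟨H, hH⟩ := exists_space hOnb hCfr hShp hDlv h hg hΓ
  refine ⟨H, hH, ?_⟩
  apply finite_of_dep
  intro φ hφ
  exact dep_all hShp hDlv hBlo hCoo hDlf hMo hBlt hCot hMt hDua h hg hΓ hc hs hkl φ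
    (fun i => (hH _).1 (hφ i))

end Helper62.LH
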