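import Pool.Agent.Helper62.LH.StG

/-!
# Project LH, part V: linear algebra at a point, volume, segment inequality, rank argument

Statements with complete proofs in the docstrings. `Dl n` is the space of covectors, `d = dg g`, `|v|_x = nr g x v`.
-/

set_option autoImplicit false

open Set Filter Topology MeasureTheory
open scoped ContDiff ENNReal

noncomputable section

namespace Helper62.LH

/-- covectors -/
abbrev Dl (n : ℕ) : Type := E n →L[ℝ] ℝ

/-! ## Linear algebra at a point -/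

/-- `f` is a basis of `ℝⁿ` orthonormal for `g x` -/
structure Onb {n : ℕ} (g : E n → Bl n) (x : E n) (f : Fin n → E n) : Prop where
  orth : ∀ i j, g x (f i) (f j) = if i = j then 1 else 0
  expd : ∀ v, ∑ i, g x v (f i) • f i = v
  inv : ∀ i j, gi g x i j = ∑ a, f a i * f a j
  det : (vol g x * vdet f) ^ 2 = 1

/-- ONB (100 lines). Orthonormal bases exist.
PROOF. `gm g x` is a symmetric positive definite matrix, so there is an invertible `P` with `Pᵀ (gm g x) P = 1` (e.g.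
from an orthonormal basis of the inner product given by `g x`: `InnerProductSpace.Core` and `stdOrthonormalBasis`; or the
spectral theorem). Let `f a` be the `a`-th column of `P`. `orth` is `Pᵀ gm P = 1`; `inv`: `gm⁻¹ = P Pᵀ`;
`det`: `(det P)² det gm = 1`, `vdet f = det Pᵀ = det P`, `vol² = det gm > 0`; `expd`: `P` is invertible, so the `f a`
span; check it on `v = f b` (or `P Pᵀ gm = 1`). -/
def StOnb : Prop := ∀ (n : ℕ) (g : E n → Bl n), IsMet g → ∀ x, ∃ f : Fin n → E n, Onb g x f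

/-- inner product of bilinear functions -/
def iB {n : ℕ} (g : E n → Bl n) (x : E n) (B C : E n → E n → ℝ) : ℝ :=
  trg g x (fun u u' => trg g x (fun v v' => B u v * C u' v'))

/-- TR (120 lines). Traces and norms in an orthonormal basis.
PROOF. `trg g x B = ∑ i j, (∑ a, f a i * f a j) * B (ee i) (ee j) = ∑ a, B (f a) (f a)` because
`f a = ∑ i, f a i • ee i`. The functions `u, u' ↦ trg (v, v' ↦ B u v * C u' v')` are again bilinear (finite sums of products),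
so the same computation applies twice. Last one: `∑ i, (L (ee i)) i` is the trace of `L`; or directly: `(L (ee i)) i
= ∑ a, g(L (ee i), f a) (f a i)` (by `expd`) and `∑ i, (f a i) • ee i = f a`. -/
def StTr : Prop := ∀ (n : ℕ) (g : E n → Bl n), IsMet g → ∀ (x : E n) (f : Fin n → E n), Onb g x f →
  (∀ B : Bl n, trg g x (fun u v => B u v) = ∑ a, B (f a) (f a)) ∧
  (∀ a b : Dl n, ip g x a b = ∑ i, a (f i) * b (f i)) ∧
  (∀ B C : Bl n, iB g x (fun u v => B u v) (fun u v => C u v) =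
    ∑ i, ∑ j, B (f i) (f j) * C (f i) (f j)) ∧
  (∀ B : Bl n, nB g x (fun u v => B u v) = ∑ i, ∑ j, B (f i) (f j) ^ 2) ∧
  ∀ L : E n →L[ℝ] E n, ∑ i, (L (ee i)) i = ∑ i, g x (L (f i)) (f i)

/-- INA (150 lines). Pointwise inequalities for covectors. Hypotheses: StOnb StTr.
PROOF. Choose an orthonormal basis `f` (ONB) and use the formulas of TR; every claim is a statement about finite sums:
Cauchy-Schwarz (`Finset.sum_mul_sq_le_sq_mul_sq`), `a v = ∑ i, g(v, f i) a (f i)`, `g v v = ∑ i, g(v, f i)²` (from `expd`).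
(6): Young. (7): for `u = ∑ a(f i) • f i`: `a u = ip a a = g u u`. (8): `∑ j (B u (f j))² ≤ (∑ i, g(u,f i)²)(∑ i j, B(f i,f j)²)`
by Cauchy-Schwarz for each `j`. -/
def StIna : Prop := ∀ (n : ℕ) (g : E n → Bl n), IsMet g → ∀ x : E n,
  (∀ a : Dl n, 0 ≤ ip g x a a) ∧ (∀ a b : Dl n, ip g x a b = ip g x b a) ∧
  (∀ a : Dl n, ip g x a a = 0 → a = 0) ∧
  (∀ a b : Dl n, |ip g x a b| ≤ √(ip g x a a) * √(ip g x b b)) ∧
  (∀ (a : Dl n) (v : E n), |a v| ≤ √(ip g x a a) * nr g x v) ∧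
  (∀ (a b : Dl n) (s : ℝ), 0 < s →
    ip g x (a + b) (a + b) ≤ (1 + s) * ip g x a a + (1 + 1 / s) * ip g x b b) ∧
  (∀ (a : Dl n) (r : ℝ), 0 ≤ r → (∀ v, |a v| ≤ r * nr g x v) → ip g x a a ≤ r ^ 2) ∧
  ∀ (B : Bl n) (u : E n), ip g x (B u) (B u) ≤ nB g x (fun u v => B u v) * g x u u

/-- INB (150 lines). Pointwise inequalities for bilinear forms. Hypotheses: StOnb StTr.
PROOF. As INA. (4): `(a_i b_j - a_j b_i)²` summed over `i, j` is `2|a|²|b|² - 2⟨a,b⟩²`. (6): for every `i, j`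
`(∑ m, c_m B_m(f i,f j))² ≤ ∑ m, B_m(f i,f j)²` as `∑ c_m² = 1`. (7): Cauchy-Schwarz with
`iB P (a ⊗ b) = ∑ P(f i,f j) a(f i) b(f j)`, where `a ⊗ b` is the bilinear form `u, v ↦ a u * b v` (as an element of `Bl n`:
`ContinuousLinearMap.smulRight`-type construction `a.smulRight b`). (8): expand the square in the basis, with
`B.flip`. -/
def StInb : Prop := ∀ (n : ℕ) (g : E n → Bl n), IsMet g → ∀ x : E n,
  (∀ B : Bl n, 0 ≤ nB g x (fun u v => B u v)) ∧
  (∀ (B C : Bl n) (s : ℝ), 0 < s → nB g x (fun u v => B u v + C u v) ≤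
    (1 + s) * nB g x (fun u v => B u v) + (1 + 1 / s) * nB g x (fun u v => C u v)) ∧
  (∀ (B : Bl n) (s : ℝ), nB g x (fun u v => s * B u v) = s ^ 2 * nB g x (fun u v => B u v)) ∧
  (∀ a b : Dl n, nB g x (fun u v => a u * b v - a v * b u) ≤ 2 * ip g x a a * ip g x b b) ∧
  (∀ a b : Dl n, nB g x (fun u v => a u * b v) = ip g x a a * ip g x b b) ∧
  (∀ (m : ℕ) (c : Fin m → ℝ) (B : Fin m → Bl n), ∑ i, c i ^ 2 = 1 →
    nB g x (fun u v => ∑ i, c i * B i u v) ≤ ∑ i, nB g x (fun u v => B i u v)) ∧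
  (∀ (P : Bl n) (a b : Dl n), |iB g x (fun u v => P u v) (fun u v => a u * b v)| ≤
    √(nB g x (fun u v => P u v)) * (√(ip g x a a) * √(ip g x b b))) ∧
  ∀ B : Bl n, nB g x (fun u v => B u v - B v u) =
    2 * nB g x (fun u v => B u v) - 2 * iB g x (fun u v => B u v) (fun u v => B v u)

/-- covariant derivative of a `1`-form as a bilinear form -/
def cB {n : ℕ} (Γ : E n → Bm n) (θ : E n → Dl n) (x : E n) : Bl n :=
  fderiv ℝ θ x - (ContinuousLinearMap.compL ℝ (E n) (E n) ℝ (θ x)).comp (Γ x)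

/-- exterior derivative of a `1`-form as a bilinear form -/
def dB {n : ℕ} (θ : E n → Dl n) (x : E n) : Bl n := fderiv ℝ θ x - (fderiv ℝ θ x).flip

/-- the vector corresponding to a covector -/
def shp {n : ℕ} (g : E n → Bl n) (x : E n) (a : Dl n) : E n :=
  ∑ i, (∑ j, gi g x i j * a (ee j)) • ee i

/-- SHP (150 lines). Raising the index. Hypotheses: StChr.
PROOF. First claims: `∑ i, gm i k * gi i j = δ` (`Matrix.mul_nonsing_inv`; the Gram matrix is invertible since it is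
positive definite), `gi` symmetric. Smoothness: `gi g · i j` is smooth (`Matrix.inv_def`, adjugate, `det ≠ 0`). Last
claim: let `X y = shp g y (θ y)`; differentiate `g y (X y) v = θ y v` in the direction `u`:
`Dg(u)(X)(v) + g(DX u, v) = Dθ(u)(v)`, and `Dg(u)(X)(v) = g(Γ(u,X),v) + g(X,Γ(u,v))`, `g(X,Γ(u,v)) = θ(Γ(u,v))`. -/
def StShp : Prop := ∀ (n : ℕ) (g : E n → Bl n) (Γ : E n → Bm n), IsMet g → IsChr g Γ →
  (∀ x (a : Dl n) v, g x (shp g x a) v = a v) ∧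
  (∀ x (a b : Dl n), ip g x a b = a (shp g x b)) ∧
  (∀ i j, ContDiff ℝ ∞ (fun x => gi g x i j)) ∧
  (∀ θ : E n → Dl n, ContDiff ℝ ∞ θ → ContDiff ℝ ∞ (fun x => shp g x (θ x))) ∧
  (∀ θ : E n → Dl n, ContDiff ℝ 1 θ → ContDiff ℝ 1 (fun x => shp g x (θ x))) ∧
  ∀ θ : E n → Dl n, ContDiff ℝ 1 θ → ∀ x u v,
    g x (fderiv ℝ (fun y => shp g y (θ y)) x u + Γ x u (shp g x (θ x))) v = cf Γ θ x u v

/-- NA (80 lines). The connection is metric for covectors. Hypotheses: StChr StShp.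
PROOF. With `Y y = shp g y (η y)`: `ip g y (ζ y) (η y) = ζ y (Y y)` by SHP; its derivative in the direction `w` is
`(D_wζ)(Y) + ζ(D_wY) = (cB ζ w)(Y) + ζ(Γ(w,Y) + D_wY)`, and `g(D_wY + Γ(w,Y), ·) = cB η w`, so
`D_wY + Γ(w,Y) = shp (cB η w)` (nondegeneracy) and `ζ(shp (cB η w)) = ip ζ (cB η w)`. -/
def StNa : Prop := ∀ (n : ℕ) (g : E n → Bl n) (Γ : E n → Bm n), IsMet g → IsChr g Γ →
  ∀ ζ η : E n → Dl n, ContDiff ℝ 1 ζ → ContDiff ℝ 1 η → ∀ x w,
    fderiv ℝ (fun y => ip g y (ζ y) (η y)) x w =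
      ip g x (cB Γ ζ x w) (η x) + ip g x (ζ x) (cB Γ η x w)

/-! ## Intermediate points -/

/-- supremum of `h` over the points which divide `x, y` in the ratio `t : 1 - t` -/
def HS {n : ℕ} (g : E n → Bl n) (h : E n → ℝ) (t : ℝ) (x y : E n) : ℝ≥0∞ :=
  ⨆ z ∈ Gt g t x y, ENNReal.ofReal (h z)

/-- PTH (150 lines). Estimate of a `1`-form vanishing at `x`. Hypotheses: StMg StRgc StIna StInb StNa.
PROOF. Let `c` be a metric geodesic from `x` to `y` (MG), `v` its velocity (RGC), `g(v,v) = d²`, `d = d x y`. The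
function `u(t) = ip(ζ,ζ)(c t)` is `C¹` on `[0,1]`, `u(0) = 0`, `|u'| = 2|ip(∇_vζ,ζ)| ≤ 2 d √(N2 ζ (c t)) √u` (NA, INA (4),
(8)). For `δ > 0` the function `s = √(u + δ²)` satisfies `s' ≤ d √(N2 ζ (c t))`, so
`√(u(1)) ≤ s(1) ≤ δ + d ∫_0^1 √(N2 ζ (c t)) dt`; `δ → 0` and Cauchy-Schwarz: `u(1) ≤ d² ∫_0^1 N2 ζ (c t) dt`.
Finally `c t ∈ Gt g t x y`, so `ofReal (N2 ζ (c t)) ≤ HS g (N2 ζ) t x y`. -/
def StPth : Prop := ∀ (n : ℕ) (g : E n → Bl n) (Γ : E n → Bm n), IsMet g → IsChr g Γ → Cpl g →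
  ∀ ζ : E n → Dl n, ContDiff ℝ ∞ ζ → ∀ x y, ζ x = 0 →
    ENNReal.ofReal (ip g y (ζ y) (ζ y)) ≤ ENNReal.ofReal (dg g x y ^ 2) *
      ∫⁻ t in Icc (0 : ℝ) 1, HS g (N2 g Γ ζ) t x y

/-- USC (120 lines). Measurability. Hypotheses: StMet StDlc StHr.
PROOF. For `s > 0` the set `{q | s ≤ HS q}` is closed: `Gt g t x y` is compact (closed by continuity of `d`, contained in a
ball `{z | d x z ≤ |t| d x y}`, HR), so `s ≤ HS g h t x y` iff there is `z ∈ Gt g t x y` with `s ≤ ofReal (h z)` (a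
continuous function attains its supremum on a nonempty compact set; if `Gt` is empty then `HS = 0 < s`). If
`q_k → q` and `z_k` belongs to `q_k` then `z_k` is bounded in `d` and has a limit point `z`, which belongs to `q` by
continuity. For `s = 0` the set is everything. So `HS` is measurable (`measurable_of_Ici`). -/
def StUsc : Prop := ∀ (n : ℕ) (g : E n → Bl n), IsMet g → Cpl g → ∀ h : E n → ℝ, Continuous h →
  Measurable (fun q : ℝ × E n × E n => HS g h q.1 q.2.1 q.2.2) ∧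
  ∀ t x y, HS g h t x y ≠ ⊤

/-- GTG (60 lines). Intermediate points lie on metric geodesics. Hypotheses: StMet StDlc StMg.
PROOF. `L = d x y`. If `t = 0` then `d x z = 0`, `z = x`; if `t = 1` then `z = y`; take any metric geodesic (MG). Let
`0 < t < 1`, `c₁, c₂` metric geodesics from `x` to `z` and from `z` to `y`; `c s = c₁(s/t)` for `s ≤ t`,
`c s = c₂((s-t)/(1-t))` for `s > t`. For `s ≤ t ≤ s'`: `d (c s) (c s') ≤ (t-s)L + (s'-t)L` and
`≥ L - sL - (1-s')L` (triangle inequality). -/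
def StGtg : Prop := ∀ (n : ℕ) (g : E n → Bl n), IsMet g → Cpl g → ∀ (x y z : E n) (t : ℝ),
  t ∈ Icc (0 : ℝ) 1 → z ∈ Gt g t x y → ∃ c : ℝ → E n, MGeo g c x y ∧ c t = z

/-- CVD (50 lines). Sublevel sets of the exhaustion are convex and small. Hypotheses: StMet StGtg StRgc.
PROOF. (1) By GTG and RGC `z = c t` for a geodesic `c` from `x` to `y`; `b ∘ c` is convex on `[0,1]`, so
`b z ≤ (1-t) b x + t b y < R`. (2) If `r0 ≤ d p x` then `κ d p x ≤ b x < R`, otherwise `d p x < r0 ≤ R/κ`; triangle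
inequality. -/
def StCvd : Prop := ∀ (n : ℕ) (g : E n → Bl n) (Γ : E n → Bm n), IsMet g → IsChr g Γ → Cpl g →
  ∀ (p : E n) (b : E n → ℝ) (κ r0 : ℝ), Bus g Γ p b κ r0 → ∀ R : ℝ,
    (∀ (x y z : E n) (t : ℝ), b x < R → b y < R → t ∈ Icc (0 : ℝ) 1 → z ∈ Gt g t x y → b z < R) ∧
    (κ * r0 ≤ R → ∀ x y, b x < R → b y < R → dg g x y ≤ 2 * R / κ)

/-! ## Volume and the segment inequality -/

/-- LIP (60 lines). Lebesgue measure of a Lipschitz image.
PROOF. `LipschitzOnWith.hausdorffMeasure_image_le` and the fact that Lebesgue measure on `EuclideanSpace` is a multiple of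
the Hausdorff measure (`EuclideanSpace.euclideanHausdorffMeasure_eq_volume`). -/
def StLip : Prop := ∀ (n : ℕ) (S : Set (E n)) (ψ : E n → E n) (L : NNReal),
  LipschitzOnWith L ψ S → volume (ψ '' S) ≤ (L : ℝ≥0∞) ^ n * volume S

/-- LIN (100 lines). A linear isometry from `(ℝⁿ, g x)` to `ℝⁿ`. Hypotheses: StOnb.
PROOF. With an orthonormal basis `f` let `A v = ∑ i, g(v, f i) • ee i`; `‖A v‖² = ∑ g(v,f i)² = g(v,v)`. The map
`A⁻¹` sends `ee i` to `f i`, so `|det A⁻¹| = |vdet f| = 1/vol g x`. `MeasureTheory.Measure.addHaar_image_linearMap` (or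
`addHaar_image_continuousLinearEquiv`). -/
def StLin : Prop := ∀ (n : ℕ) (g : E n → Bl n), IsMet g → ∀ x, ∃ A : E n ≃L[ℝ] E n,
  (∀ v, ‖A v‖ = nr g x v) ∧ ∀ S : Set (E n), volume (A '' S) = ENNReal.ofReal (vol g x) * volume S

/-- VA (150 lines). Local volume estimate. Hypotheses: StLoc StLip StLin.
PROOF. Let `ε = η` and take `r` such that LOC holds on `ball a r`, `ball b r` and `(1-η) vol a ≤ vol ≤ (1+η) vol a` on
`ball a r`, the same for `b` (`vol` is continuous and positive). Let `A, B` be from LIN at `a, b`. For `z, z' ∈ S`: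
`‖B(ψ z - ψ z')‖ = |ψ z - ψ z'|_b ≤ d(ψ z,ψ z')/(1-η) ≤ Λ d(z,z')/(1-η) ≤ Λ (1+η)/(1-η) ‖A(z - z')‖`, so
`B ∘ ψ ∘ A⁻¹` is Lipschitz on `A '' S` with constant `L = Λ(1+η)/(1-η)` and
`vol b · volume (ψ '' S) ≤ L^n vol a · volume S`. Finally `mg g (ψ '' S) ≤ (1+η) vol b · volume (ψ '' S)` and
`(1-η) vol a · volume S ≤ mg g S` (for arbitrary sets: use `toMeasurable` for the measure on the right side,
intersected with the open ball). -/
def StVa : Prop := ∀ (n : ℕ) (g : E n → Bl n), IsMet g → ∀ (a b : E n) (η : ℝ), 0 < η → η < 1 →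
  ∃ r > 0, ∀ (S : Set (E n)) (ψ : E n → E n) (Λ : ℝ), 0 ≤ Λ → S ⊆ Metric.ball a r →
    ψ '' S ⊆ Metric.ball b r → (∀ z ∈ S, ∀ z' ∈ S, dg g (ψ z) (ψ z') ≤ Λ * dg g z z') →
    mg g (ψ '' S) ≤ ENNReal.ofReal (((1 + η) / (1 - η)) ^ (n + 1) * Λ ^ n) * mg g S

/-- VOL (150 lines). Volume of the image of a map which is Lipschitz for the distance. Hypotheses: StDlc StVa.
PROOF. Fix `η`. `ψ` is continuous on `S` (DLC: the distance defines the topology). For `z ∈ S` let `r_z` be from VA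
for `a = z`, `b = ψ z`, and `O_z` open with `S ∩ O_z = {y ∈ S | y ∈ ball z r_z, ψ y ∈ ball (ψ z) r_z}` (`ψ` is continuous on
`S`). Countably many `O_i` cover `S` (Lindelof). Let `M_i = O_i \ ⋃_{j<i} O_j` (measurable, `disjointed`). Then
`mg (ψ '' S) ≤ ∑ mg (ψ '' (S ∩ M_i)) ≤ C_η ∑ mg (S ∩ M_i) = C_η mg S` (the last equality for an arbitrary set `S`:
`(mg g).restrict S` is a measure and `restrict_apply` holds for the measurable sets `M_i`). Let `η → 0` (if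
`mg S = ∞` the claim is clear). -/
def StVol : Prop := ∀ (n : ℕ) (g : E n → Bl n), IsMet g → ∀ (S : Set (E n)) (ψ : E n → E n)
  (Λ : ℝ), 0 < Λ → (∀ z ∈ S, ∀ z' ∈ S, dg g (ψ z) (ψ z') ≤ Λ * dg g z z') →
  mg g (ψ '' S) ≤ ENNReal.ofReal (Λ ^ n) * mg g S

/-- SGA (120 lines). Segment inequality with one end point fixed. Hypotheses: StMet StDlc StNc StVol StUsc.
PROOF. Let `μ` be `mg g` restricted to `D`. For `s ≥ 0` let `A = {y ∈ D | s < HS g h t x y}`; for `y ∈ A` choose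
`z(y) ∈ Gt g t x y` with `s < ofReal (h (z y))`. `z(y) ∈ D`. By NC `t d(y,y') ≤ d(z(y),z(y'))`, so `z` is injective on
`A` (DLC) and its inverse `ψ : z(A) → A` satisfies `d(ψ z,ψ z') ≤ (1/t) d(z,z')`. VOL: `mg A ≤ t^{-n} mg (z(A)) ≤
2^n mg {z ∈ D | s < ofReal (h z)}`. Integrate over `s` (layer cake `lintegral_eq_lintegral_meas_lt` for the real valued
functions `(HS g h t x ·).toReal` (finite by USC) and `max h 0`; `s` real). -/
def StSga : Prop := ∀ (n : ℕ) (g : E n → Bl n) (Γ : E n → Bm n), IsMet g → IsChr g Γ → Cpl g →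
  Sec g Γ → ∀ h : E n → ℝ, Continuous h → ∀ (x : E n) (t : ℝ), t ∈ Icc (1 / 2 : ℝ) 1 →
  ∀ D : Set (E n), MeasurableSet D → (∀ y ∈ D, Gt g t x y ⊆ D) →
    ∫⁻ y in D, HS g h t x y ∂(mg g) ≤ 2 ^ n * ∫⁻ y in D, ENNReal.ofReal (h y) ∂(mg g)

/-- SEG (150 lines). Segment inequality. Hypotheses: StMet StUsc StSga.
PROOF. `mg g` is sigma finite. Split `[0,1] = [0,1/2] ∪ [1/2,1]`. For `t ∈ [1/2,1]` SGA for every `x ∈ D` and Tonelli:
`∫_{[1/2,1]} ∫_D ∫_D HS ≤ (1/2) mg D 2^n ∫_D h`. For `t ∈ [0,1/2]`: `Gt g t x y = Gt g (1-t) y x` by the symmetry of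
the distance, so `HS g h t x y = HS g h (1-t) y x`; exchange the order of the integrations over `x` and `y` and apply SGA to
`1 - t`. Measurability by USC. -/
def StSeg : Prop := ∀ (n : ℕ) (g : E n → Bl n) (Γ : E n → Bm n), IsMet g → IsChr g Γ → Cpl g →
  Sec g Γ → ∀ h : E n → ℝ, Continuous h → ∀ D : Set (E n), MeasurableSet D →
  (∀ x ∈ D, ∀ y ∈ D, ∀ t ∈ Icc (0 : ℝ) 1, Gt g t x y ⊆ D) →
    ∫⁻ x in D, (∫⁻ y in D, (∫⁻ t in Icc (0 : ℝ) 1, HS g h t x y) ∂(mg g)) ∂(mg g) ≤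
      2 ^ n * mg g D * ∫⁻ y in D, ENNReal.ofReal (h y) ∂(mg g)

/-- RK (180 lines). Rank argument: among `n+1` one-forms some unit combination is small. Hypotheses: StChr StMet
StInb StShp StPth StUsc StSeg.
PROOF. `N2 g Γ θ` is continuous for smooth `θ` (finite sum of products of `gi` and derivatives). Let
`h = ∑ i, N2 g Γ (θ i)`, `Φ x = ∫⁻_{y ∈ D} ∫⁻_{t ∈ [0,1]} HS g h t x y` (measurable by USC, Tonelli). By SEG
`∫⁻_D Φ ≤ 2^n mg D ∫⁻_D h`, so (`0 < mg D < ∞`) there is `x ∈ D` with `Φ x ≤ 2^n ∫⁻_D h`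
(`MeasureTheory.exists_le_setLAverage` or contradiction with a strict inequality everywhere on `D`; if the integral of `h` is `∞` any `x` works). The `n+1`
covectors `θ i x` are linearly dependent in the `n`-dimensional space `Dl n`, so there is `c` with `∑ c i² = 1` and
`∑ c i • θ i x = 0`. `ζ = ∑ c i • θ i` is smooth, `N2 ζ ≤ h` by INB (6), `HS` is monotone in the function, so by PTH for
`y ∈ D`: `ofReal |ζ y|² ≤ ofReal (Δ²) ∫⁻ HS g h t x y dt`. Integrate over `y ∈ D`. -/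
def StRk : Prop := ∀ (n : ℕ) (g : E n → Bl n) (Γ : E n → Bm n), IsMet g → IsChr g Γ → Cpl g →
  Sec g Γ → ∀ D : Set (E n), MeasurableSet D → mg g D ≠ 0 → mg g D ≠ ⊤ →
  (∀ x ∈ D, ∀ y ∈ D, ∀ t ∈ Icc (0 : ℝ) 1, Gt g t x y ⊆ D) →
  ∀ Δ : ℝ, 0 < Δ → (∀ x ∈ D, ∀ y ∈ D, dg g x y ≤ Δ) →
  ∀ θ : Fin (n + 1) → E n → Dl n, (∀ i, ContDiff ℝ ∞ (θ i)) →
  ∃ c : Fin (n + 1) → ℝ, ∑ i, c i ^ 2 = 1 ∧
    ∫⁻ y in D, ENNReal.ofReal (ip g y (∑ i, c i • θ i y) (∑ i, c i • θ i y)) ∂(mg g) ≤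
      ENNReal.ofReal (2 ^ n * Δ ^ 2) *
        ∫⁻ y in D, ENNReal.ofReal (∑ i, N2 g Γ (θ i) y) ∂(mg g)

end Helper62.LH
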