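import Pool.Agent.Helper62.LH.All

/-!
# Project LH: the statement of the main theorem

Definitions used by the final statement (in terms of the metric `g` alone): derivatives, Christoffel
symbols, curvature, harmonic forms, dimension.
-/

set_option autoImplicit false
set_option maxSynthPendingDepth 3

open Set Filter Topology MeasureTheory
open scoped ContDiff ENNReal

noncomputable section

namespace Helper62.LH

variable {n k l : ℕ}

/-- the number `g_x(u,v)` -/
def gx (g : E n → Bl n) (x u v : E n) : ℝ := g x u v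

/-- derivative of a function at `x` in the direction `w` -/
def dS (f : E n → ℝ) (x w : E n) : ℝ := fderiv ℝ f x w

/-- derivative of a vector field at `x` in the direction `w` -/
def dV (f : E n → E n) (x w : E n) : E n := fderiv ℝ f x w

/-- `∑ j, g^{ij} (∂_u g(v,e_j) + ∂_v g(u,e_j) - ∂_j g(u,v)) / 2` -/
def chrC (g : E n → Bl n) (x u v : E n) (i : Fin n) : ℝ :=
  ∑ j, gi g x i j * ((dS (fun y => gx g y v (ee j)) x u + dS (fun y => gx g y u (ee j)) x v -
    dS (fun y => gx g y u v) x (ee j)) / 2)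

/-- the Levi-Civita connection: `∇_u v = chr g x u v` at `x` for constant vector fields `u, v` -/
def chr (g : E n → Bl n) (x u v : E n) : E n := ∑ i, chrC g x u v i • ee i

/-- the curvature tensor `R(a,b)c` -/
def curv (g : E n → Bl n) (x a b c : E n) : E n :=
  dV (fun y => chr g y b c) x a - dV (fun y => chr g y a c) x b +
    chr g x a (chr g x b c) - chr g x b (chr g x a c)

/-- nonnegative sectional curvature: `g(R(u,v)v,u) ≥ 0` -/
def SecNonneg (g : E n → Bl n) : Prop := ∀ x u v, 0 ≤ gx g x (curv g x u v v) u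

/-- smooth `k`-form -/
def IsSmooth (φ : E n → E n [⋀^Fin k]→L[ℝ] ℝ) : Prop := ContDiff ℝ ∞ φ

/-- closed `k`-form -/
def IsClosedForm (φ : E n → E n [⋀^Fin k]→L[ℝ] ℝ) : Prop := ∀ x, extDeriv φ x = 0

/-- `∫ |φ|² dvol < ∞` -/
def IsL2 (g : E n → Bl n) (φ : E n → E n [⋀^Fin k]→L[ℝ] ℝ) : Prop :=
  Integrable (fun x => nsq g k x (φ x) * vol g x)

/-- `φ` is an `L²` harmonic `k`-form: smooth, `dφ = 0`, `d⋆φ = 0` and `∫ |φ|² dvol < ∞` -/
def Harmonic (h : k + l = n) (g : E n → Bl n) (φ : E n → E n [⋀^Fin k]→L[ℝ] ℝ) : Prop :=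
  IsSmooth φ ∧ IsClosedForm φ ∧
    (∃ τ : E n → E n [⋀^Fin l]→L[ℝ] ℝ, IsSmooth τ ∧ IsStar h g φ τ ∧ IsClosedForm τ) ∧ IsL2 g φ

/-- `S` is a linear subspace of finite dimension `≤ N` -/
def DimLe {V : Type} [AddCommGroup V] [Module ℝ V] (S : Set V) (N : ℕ) : Prop :=
  ∃ H : Submodule ℝ V, (∀ v, v ∈ H ↔ v ∈ S) ∧ Module.Finite ℝ H ∧ Module.finrank ℝ H ≤ N

/-! ## Comparison with the definitions used in the proofs -/

theorem coord_eq {g : E n → Bl n} (hg : IsMet g) {Γ : E n → Bm n} (hΓ : IsChr g Γ) (x z : E n) :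
    ∑ i, (∑ j, gi g x i j * g x z (ee j)) • ee i = z := by
  have h := (pShp n g Γ hg hΓ).1 x (g x z)
  have h2 : shp g x (g x z) = z := by
    have h3 : ∀ v, g x (shp g x (g x z) - z) v = 0 := by
      intro v
      rw [map_sub, sub_apply, h v, sub_self]
    by_contra hne
    have h4 := hg.pos x (shp g x (g x z) - z) (sub_ne_zero.2 hne)
    rw [h3] at h4
    exact lt_irrefl _ h4
  exact h2

theorem dS_gx {g : E n → Bl n} (hg : IsMet g) (x u v w : E n) :
    dS (fun y => gx g y u v) x w = fderiv ℝ g x w u v := by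
  unfold dS gx
  have hd : HasFDerivAt g (fderiv ℝ g x) x :=
    ((hg.smooth.differentiable (by simp)).differentiableAt).hasFDerivAt
  have h1 := (hd.clm_apply (hasFDerivAt_const u x)).clm_apply (hasFDerivAt_const v x)
  rw [h1.fderiv]
  simp

theorem chr_eq {g : E n → Bl n} (hg : IsMet g) {Γ : E n → Bm n} (hΓ : IsChr g Γ) (x u v : E n) :
    chr g x u v = Γ x u v := by
  rw [← coord_eq hg hΓ x (Γ x u v)]
  unfold chr chrC
  refine Finset.sum_congr rfl fun i _ => ?_
  congr 1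
  refine Finset.sum_congr rfl fun j _ => ?_
  rw [hΓ x u v (ee j), dS_gx hg, dS_gx hg, dS_gx hg]

theorem curv_eq {g : E n → Bl n} (hg : IsMet g) {Γ : E n → Bm n} (hΓ : IsChr g Γ) (x a b c : E n) :
    curv g x a b c = Rm Γ x a b c := by
  unfold curv Rm
  have h1 : ∀ u v w, dV (fun y => chr g y u v) x w = fderiv ℝ Γ x w u v := by
    intro u v w
    have h2 : (fun y => chr g y u v) = fun y => Γ y u v := by
      funext y
      exact chr_eq hg hΓ y u v
    rw [h2]
    unfold dV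
    have hd : HasFDerivAt Γ (fderiv ℝ Γ x) x :=
      (((pChr n g Γ hg hΓ).1.differentiable (by simp)).differentiableAt).hasFDerivAt
    have h3 := (hd.clm_apply (hasFDerivAt_const u x)).clm_apply (hasFDerivAt_const v x)
    rw [h3.fderiv]
    simp
  rw [h1, h1, chr_eq hg hΓ, chr_eq hg hΓ, chr_eq hg hΓ, chr_eq hg hΓ]

theorem harmonic_iff (h : k + l = n) (g : E n → Bl n) (φ : E n → E n [⋀^Fin k]→L[ℝ] ℝ) :
    Harmonic h g φ ↔ Harm h g φ :=
  ⟨fun ⟨h1, h2, h3, h4⟩ => ⟨h1, h2, h3, h4⟩, fun h => ⟨h.smooth, h.closed, h.coclosed, h.int⟩⟩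

/-- the Hodge star exists, and it is smooth for smooth forms -/
theorem star_exists (h : k + l = n) (g : E n → Bl n) (hg : IsMet g)
    (φ : E n → E n [⋀^Fin k]→L[ℝ] ℝ) (hφ : IsSmooth φ) :
    ∃ τ : E n → E n [⋀^Fin l]→L[ℝ] ℝ, IsSmooth τ ∧ IsStar h g φ τ := by
  obtain ⟨Γ, hΓ⟩ := pChe n g hg
  exact pEx n k l h g Γ hg hΓ φ hφ

/-- Main theorem in terms of the metric alone. -/
theorem main' (n : ℕ) (g : E n → Bl n) (hg : IsMet g) (hc : Cpl g) (hs : SecNonneg g)
    (k l : ℕ) (h : k + l = n) (hkl : k ≤ 2 ∨ l ≤ 2) :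
    DimLe {φ : E n → E n [⋀^Fin k]→L[ℝ] ℝ | Harmonic h g φ}
      (if k = 0 ∨ l = 0 then 1 else n) := by
  obtain ⟨Γ, hΓ⟩ := pChe n g hg
  have hs' : Sec g Γ := by
    intro x u v
    have := hs x u v
    rwa [curv_eq hg hΓ] at this
  obtain ⟨H, hH, hf, hr⟩ := main n g Γ hg hΓ hc hs' k l h hkl
  refine ⟨H, fun φ => ?_, hf, hr⟩
  rw [hH, Set.mem_ofPred_eq, harmonic_iff]

end Helper62.LH
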