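import Pool.Agent.Helper62.LH.Fin
import Pool.Agent.Helper13.LH.M_FRB
import Pool.Agent.Helper13.LH.M_RIC
import Pool.Agent.Helper15.LH.M_PTR
import Pool.Agent.Helper15.LH.M_RK
import Pool.Agent.Helper15.LH.M_THE
import Pool.Agent.Helper15.LH.M_UP
import Pool.Agent.Helper17.LH.M_DEN
import Pool.Agent.Helper17.LH.M_FRC
import Pool.Agent.Helper17.LH.M_MOC
import Pool.Agent.Helper17.LH.M_MOS
import Pool.Agent.Helper19.LH.M_EPF
import Pool.Agent.Helper19.LH.M_PTH
import Pool.Agent.Helper2.LH.M_INA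
import Pool.Agent.Helper2.LH.M_ONB
import Pool.Agent.Helper24.LH.M_KEY
import Pool.Agent.Helper28.LH.M_BLO
import Pool.Agent.Helper28.LH.M_MG
import Pool.Agent.Helper28.LH.M_SGA
import Pool.Agent.Helper29.LH.M_CVX
import Pool.Agent.Helper29.LH.M_LOD
import Pool.Agent.Helper29.LH.M_PAI
import Pool.Agent.Helper29.LH.M_PL
import Pool.Agent.Helper29.LH.M_SCH
import Pool.Agent.Helper29.LH.M_USC
import Pool.Agent.Helper39.LH.M_GTG
import Pool.Agent.Helper40.LH.M_PTW
import Pool.Agent.Helper41.LH.M_CHR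
import Pool.Agent.Helper41.LH.M_CPT
import Pool.Agent.Helper41.LH.M_FR
import Pool.Agent.Helper41.LH.M_MT
import Pool.Agent.Helper41.LH.M_SMA
import Pool.Agent.Helper41.LH.M_TR
import Pool.Agent.Helper43.LH.M_CC
import Pool.Agent.Helper43.LH.M_CMP
import Pool.Agent.Helper43.LH.M_CUR
import Pool.Agent.Helper43.LH.M_DTZ
import Pool.Agent.Helper43.LH.M_HL
import Pool.Agent.Helper43.LH.M_MO
import Pool.Agent.Helper43.LH.M_NC
import Pool.Agent.Helper43.LH.M_SM
import Pool.Agent.Helper48.LH.M_RGB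
import Pool.Agent.Helper48.LH.M_SEG
import Pool.Agent.Helper60.LH.M_CVD
import Pool.Agent.Helper60.LH.M_LOC
import Pool.Agent.Helper65.LH.M_SMC
import Pool.Agent.Helper67.LH.M_COO
import Pool.Agent.Helper67.LH.M_LIP
import Pool.Agent.Helper67.LH.M_UT
import Pool.Agent.Helper7.LH.M_ALX
import Pool.Agent.Helper7.LH.M_BUS
import Pool.Agent.Helper7.LH.M_COT
import Pool.Agent.Helper7.LH.M_DEL
import Pool.Agent.Helper7.LH.M_LIN
import Pool.Agent.Helper72.LH.M_CUT
import Pool.Agent.Helper72.LH.M_DLV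
import Pool.Agent.Helper76.LH.M_HR
import Pool.Agent.Helper79.LH.M_RGA
import Pool.Agent.Helper79.LH.M_VA
import Pool.Agent.Helper8.LH.M_DBR
import Pool.Agent.Helper8.LH.M_DGE
import Pool.Agent.Helper8.LH.M_ONE
import Pool.Agent.Helper80.LH.M_HP
import Pool.Agent.Helper80.LH.M_INB
import Pool.Agent.Helper80.LH.M_LL
import Pool.Agent.Helper84.LH.M_CHE
import Pool.Agent.Helper84.LH.M_WT
import Pool.Agent.Helper86.LH.M_BO
import Pool.Agent.Helper86.LH.M_GE
import Pool.Agent.Helper86.LH.M_LIM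
import Pool.Agent.Helper86.LH.M_SV
import Pool.Agent.Helper92.LH.M_EPS
import Pool.Agent.Helper94.LH.M_EX
import Pool.Agent.Helper94.LH.M_RGC
import Pool.Agent.Helper95.LH.M_DIV
import Pool.Agent.Helper95.LH.M_DLC
import Pool.Agent.Helper95.LH.M_DLF
import Pool.Agent.Helper95.LH.M_NA
import Pool.Agent.Helper96.LH.M_BLT
import Pool.Agent.Helper96.LH.M_MET
import Pool.Agent.Helper98.LH.M_BFA
import Pool.Agent.Helper98.LH.M_FRA
import Pool.Agent.Helper99.LH.M_CFR
import Pool.Agent.Helper99.LH.M_DUA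
import Pool.Agent.Helper99.LH.M_SHP
import Pool.Agent.Helper99.LH.M_SMB
import Pool.Agent.Helper99.LH.M_VOL

/-!
# Project LH: all modules together
-/

set_option autoImplicit false

noncomputable section

namespace Helper62.LH

theorem pChe : StChe := _root_.Pool.Agent.Helper84.LH.hChe
theorem pChr : StChr := _root_.Pool.Agent.Helper41.LH.hChr
theorem pCur : StCur := _root_.Pool.Agent.Helper43.LH.hCur pChr
theorem pSv : StSv := _root_.Pool.Agent.Helper86.LH.hSv pChr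
theorem pCmp : StCmp := _root_.Pool.Agent.Helper43.LH.hCmp
theorem pMet : StMet := _root_.Pool.Agent.Helper96.LH.hMet
theorem pLoc : StLoc := _root_.Pool.Agent.Helper60.LH.hLoc pCmp pMet
theorem pDlc : StDlc := _root_.Pool.Agent.Helper95.LH.hDlc pCmp pMet pLoc
theorem pHr : StHr := _root_.Pool.Agent.Helper76.LH.hHr pMet pDlc
theorem pMg : StMg := _root_.Pool.Agent.Helper28.LH.hMg pMet pDlc pHr
theorem pLl : StLl := _root_.Pool.Agent.Helper80.LH.hLl pCmp pMet pLoc
theorem pDge : StDge := _root_.Pool.Agent.Helper8.LH.hDge pLl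
theorem pDbr : StDbr := _root_.Pool.Agent.Helper8.LH.hDbr
theorem pRga : StRga := _root_.Pool.Agent.Helper79.LH.hRga pCmp pMet pLoc pDlc pLl
theorem pRgb : StRgb := _root_.Pool.Agent.Helper48.LH.hRgb pLl
theorem pRgc : StRgc := _root_.Pool.Agent.Helper94.LH.hRgc pRga pRgb pDbr
theorem pLod : StLod := _root_.Pool.Agent.Helper29.LH.hLod
theorem pPtr : StPtr := _root_.Pool.Agent.Helper15.LH.hPtr pChr pLod
theorem pUp : StUp := _root_.Pool.Agent.Helper15.LH.hUp pChr pCur pSv pMg pDge pRgc pPtr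
theorem pCc : StCc := _root_.Pool.Agent.Helper43.LH.hCc
theorem pAlx : StAlx := _root_.Pool.Agent.Helper7.LH.hAlx pMet pDlc pMg pRgc pPtr pUp pCc
theorem pNc : StNc := _root_.Pool.Agent.Helper43.LH.hNc pMet pAlx
theorem pBfa : StBfa := _root_.Pool.Agent.Helper98.LH.hBfa pMet pHr pAlx
theorem pBus : StBus := _root_.Pool.Agent.Helper7.LH.hBus pMet pDlc pHr pMg pRgc pBfa
theorem pGe : StGe := _root_.Pool.Agent.Helper86.LH.hGe pChr
theorem pDel : StDel := _root_.Pool.Agent.Helper7.LH.hDel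
theorem pSma : StSma := _root_.Pool.Agent.Helper41.LH.hSma
theorem pSmb : StSmb := _root_.Pool.Agent.Helper99.LH.hSmb pCmp pMet pDlc pSma
theorem pSmc : StSmc := _root_.Pool.Agent.Helper65.LH.hSmc pChr pCmp pMet pSma pGe
theorem pSm : StSm := _root_.Pool.Agent.Helper43.LH.hSm pMet pDlc pDel pSma pSmb pSmc
theorem pOnb : StOnb := _root_.Pool.Agent.Helper2.LH.hOnb
theorem pTr : StTr := _root_.Pool.Agent.Helper41.LH.hTr
theorem pIna : StIna := _root_.Pool.Agent.Helper2.LH.hIna pOnb pTr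
theorem pInb : StInb := _root_.Pool.Agent.Helper80.LH.hInb pOnb pTr
theorem pShp : StShp := _root_.Pool.Agent.Helper99.LH.hShp pChr
theorem pNa : StNa := _root_.Pool.Agent.Helper95.LH.hNa pShp
theorem pPth : StPth := _root_.Pool.Agent.Helper19.LH.hPth pMg pRgc pIna pInb pNa
theorem pUsc : StUsc := _root_.Pool.Agent.Helper29.LH.hUsc pMet pDlc pHr
theorem pGtg : StGtg := _root_.Pool.Agent.Helper39.LH.hGtg pMet pDlc pMg
theorem pCvd : StCvd := _root_.Pool.Agent.Helper60.LH.hCvd pMet pGtg pRgc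
theorem pLip : StLip := _root_.Pool.Agent.Helper67.LH.hLip
theorem pLin : StLin := _root_.Pool.Agent.Helper7.LH.hLin pOnb
theorem pVa : StVa := _root_.Pool.Agent.Helper79.LH.hVa pLoc pLip pLin
theorem pVol : StVol := _root_.Pool.Agent.Helper99.LH.hVol pDlc pVa
theorem pSga : StSga := _root_.Pool.Agent.Helper28.LH.hSga pMet pDlc pNc pVol pUsc
theorem pSeg : StSeg := _root_.Pool.Agent.Helper48.LH.hSeg pMet pUsc pSga
theorem pRk : StRk := _root_.Pool.Agent.Helper15.LH.hRk pChr pMet pInb pShp pPth pUsc pSeg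
theorem pUt : StUt := _root_.Pool.Agent.Helper67.LH.hUt pChe pShp pIna
theorem pRic : StRic := _root_.Pool.Agent.Helper13.LH.hRic pOnb pTr
theorem pDlv : StDlv := _root_.Pool.Agent.Helper72.LH.hDlv pChr
theorem pDiv : StDiv := _root_.Pool.Agent.Helper95.LH.hDiv pChr pDlv
theorem pPtw : StPtw := _root_.Pool.Agent.Helper40.LH.hPtw
theorem pBo : StBo := _root_.Pool.Agent.Helper86.LH.hBo pChr pOnb pTr pInb pShp pUt pRic pDiv pPtw
theorem pCpt : StCpt := _root_.Pool.Agent.Helper41.LH.hCpt pUt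
theorem pHp : StHp := _root_.Pool.Agent.Helper80.LH.hHp pUt pIna pCpt
theorem pMos : StMos := _root_.Pool.Agent.Helper17.LH.hMos
theorem pSch : StSch := _root_.Pool.Agent.Helper29.LH.hSch
theorem pDen : StDen := _root_.Pool.Agent.Helper17.LH.hDen
theorem pMoc : StMoc := _root_.Pool.Agent.Helper17.LH.hMoc pMos pSch pDen
theorem pFrc : StFrc := _root_.Pool.Agent.Helper17.LH.hFrc pMos pSch pDen
theorem pFra : StFra := _root_.Pool.Agent.Helper98.LH.hFra pUt pMos
theorem pDlf : StDlf := _root_.Pool.Agent.Helper95.LH.DLF.hDlf pChr pShp pDlv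
theorem pFrb : StFrb := _root_.Pool.Agent.Helper13.LH.hFrb pShp pDlv pMos pFrc pDlf
theorem pFr : StFr := _root_.Pool.Agent.Helper41.LH.hFr pUt pSma pMoc pFra pFrb
theorem pLim : StLim := _root_.Pool.Agent.Helper86.LH.hLim pChr pShp pUt pIna pInb pBo
theorem pPl : StPl := _root_.Pool.Agent.Helper29.LH.hPl
theorem pCvx : StCvx := _root_.Pool.Agent.Helper29.LH.hCvx
theorem pWt : StWt := _root_.Pool.Agent.Helper84.LH.hWt pMet pDlc pUt pSm pCvx
theorem pCut : StCut := _root_.Pool.Agent.Helper72.LH.hCut pSm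
theorem pHl : StHl := _root_.Pool.Agent.Helper43.LH.hHl pShp pDlv pUt pInb
theorem pPai : StPai := _root_.Pool.Agent.Helper29.LH.hPai pShp pDlv
theorem pThe : StThe := _root_.Pool.Agent.Helper15.LH.hThe pChr pUt pIna pInb pHp pFr pLim pPl pWt pCut
theorem pKey : StKey := _root_.Pool.Agent.Helper24.LH.hKey pChr pUt pMet pDlc pIna pInb pBus pCvd pRk pCut pPai pHl pThe
theorem pMt : StMt := _root_.Pool.Agent.Helper41.LH.hMt pUt pInb pOnb pTr pKey
theorem pOne : StOne := _root_.Pool.Agent.Helper8.LH.hOne pChr pUt pIna pInb pBo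
theorem pMo : StMo := _root_.Pool.Agent.Helper43.LH.hMo pIna pNa pBus pCut pOne
theorem pCfr : StCfr := _root_.Pool.Agent.Helper99.LH.hCfr
theorem pEps : StEps := _root_.Pool.Agent.Helper92.LH.hEps
theorem pEpf : StEpf := _root_.Pool.Agent.Helper19.LH.hEpf
theorem pDua : StDua := _root_.Pool.Agent.Helper99.LH.hDua pOnb pCfr pEps pEpf
theorem pDtz : StDtz := _root_.Pool.Agent.Helper43.LH.hDtz
theorem pCot : StCot := _root_.Pool.Agent.Helper7.LH.hCot pShp pDlv pDtz
theorem pCoo : StCoo := _root_.Pool.Agent.Helper67.LH.hCoo pShp pDlv pDtz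
theorem pBlt : StBlt := _root_.Pool.Agent.Helper96.LH.hBlt
theorem pBlo : StBlo := _root_.Pool.Agent.Helper28.LH.hBlo
theorem pEx : StEx := _root_.Pool.Agent.Helper94.LH.hEx pShp pDlv pEpf

/-- Main theorem: `L²` harmonic forms in the degrees `0, 1, 2, n-2, n-1, n`. -/
theorem main (n : ℕ) (g : E n → Bl n) (Γ : E n → Bm n) (hg : IsMet g)
    (hΓ : IsChr g Γ) (hc : Cpl g) (hs : Sec g Γ) (k l : ℕ) (h : k + l = n)
    (hkl : k ≤ 2 ∨ l ≤ 2) :
    ∃ H : Submodule ℝ (E n → E n [⋀^Fin k]→L[ℝ] ℝ), (∀ φ, φ ∈ H ↔ Harm h g φ) ∧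
      Module.Finite ℝ H ∧ Module.finrank ℝ H ≤ if k = 0 ∨ l = 0 then 1 else n :=
  fin_main pShp pDlv pBlo pCoo pDlf pMo pBlt pCot pMt pDua pOnb pCfr n g Γ hg hΓ hc hs k l h hkl

end Helper62.LH
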