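import Mathlib

/-!
# Project LH (MP_087a81_gt): definitions

`L²` harmonic forms of complete Riemannian metrics of nonnegative sectional curvature on `ℝⁿ`.
Riemannian geometry on `ℝⁿ` without indices: a metric is a smooth map `g` into symmetric positive
definite bilinear forms, its Levi-Civita connection is given by the Christoffel map `Γ`.
-/

set_option autoImplicit false

open Set Filter Topology MeasureTheory
open scoped ContDiff ENNReal

noncomputable section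

namespace Helper62.LH

/-! ## Metrics, length, distance, completeness -/

/-- `ℝⁿ` -/
abbrev E (n : ℕ) : Type := EuclideanSpace ℝ (Fin n)

/-- bilinear forms on `ℝⁿ` -/
abbrev Bl (n : ℕ) : Type := E n →L[ℝ] E n →L[ℝ] ℝ

/-- bilinear maps `ℝⁿ × ℝⁿ → ℝⁿ` -/
abbrev Bm (n : ℕ) : Type := E n →L[ℝ] E n →L[ℝ] E n

/-- standard basis -/
def ee {n : ℕ} (i : Fin n) : E n := EuclideanSpace.single i 1

/-- a smooth Riemannian metric on `ℝⁿ` -/
structure IsMet {n : ℕ} (g : E n → Bl n) : Prop where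
  smooth : ContDiff ℝ ∞ g
  symm : ∀ x u v, g x u v = g x v u
  pos : ∀ x v, v ≠ 0 → 0 < g x v v

/-- norm of a tangent vector -/
def nr {n : ℕ} (g : E n → Bl n) (x v : E n) : ℝ := √(g x v v)

/-- length of a curve over `[0,1]` -/
def len {n : ℕ} (g : E n → Bl n) (c : ℝ → E n) : ℝ := ∫ t in (0 : ℝ)..1, nr g (c t) (deriv c t)

/-- Riemannian distance: infimum of the lengths of `C¹` curves -/
def dg {n : ℕ} (g : E n → Bl n) (x y : E n) : ℝ :=
  sInf {l : ℝ | ∃ c : ℝ → E n, ContDiff ℝ 1 c ∧ c 0 = x ∧ c 1 = y ∧ l = len g c}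

/-- completeness: Cauchy sequences of the Riemannian distance converge -/
def Cpl {n : ℕ} (g : E n → Bl n) : Prop :=
  ∀ u : ℕ → E n, (∀ ε > 0, ∃ N, ∀ i ≥ N, ∀ j ≥ N, dg g (u i) (u j) < ε) →
    ∃ x, ∀ ε > 0, ∃ N, ∀ i ≥ N, dg g (u i) x < ε

/-! ## Connection and curvature -/

/-- `Γ` is the Levi-Civita connection of `g` (Koszul formula for constant vector fields):
`∇_u v = Γ(u,v)` for constant `u, v` -/
def IsChr {n : ℕ} (g : E n → Bl n) (Γ : E n → Bm n) : Prop :=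
  ∀ x u v w, g x (Γ x u v) w =
    (fderiv ℝ g x u v w + fderiv ℝ g x v u w - fderiv ℝ g x w u v) / 2

/-- the curvature tensor `R(a,b)c` -/
def Rm {n : ℕ} (Γ : E n → Bm n) (x a b c : E n) : E n :=
  fderiv ℝ Γ x a b c - fderiv ℝ Γ x b a c + Γ x a (Γ x b c) - Γ x b (Γ x a c)

/-- nonnegative sectional curvature: `g(R(u,v)v,u) ≥ 0` -/
def Sec {n : ℕ} (g : E n → Bl n) (Γ : E n → Bm n) : Prop :=
  ∀ x u v, 0 ≤ g x (Rm Γ x u v v) u

/-! ## Volume and norms of forms -/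

/-- Gram matrix of the standard basis -/
def gm {n : ℕ} (g : E n → Bl n) (x : E n) : Matrix (Fin n) (Fin n) ℝ :=
  Matrix.of fun i j => g x (ee i) (ee j)

/-- inverse metric -/
def gi {n : ℕ} (g : E n → Bl n) (x : E n) : Matrix (Fin n) (Fin n) ℝ := (gm g x)⁻¹

/-- volume density -/
def vol {n : ℕ} (g : E n → Bl n) (x : E n) : ℝ := √ (gm g x).det

/-- squared norm of an alternating `k`-form:
`|α|² = (1/k!) ∑ g^{i₁j₁} ... g^{i_kj_k} α(∂_{i₁},...,∂_{i_k}) α(∂_{j₁},...,∂_{j_k})` -/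
def nsq {n : ℕ} (g : E n → Bl n) (k : ℕ) (x : E n) (α : E n [⋀^Fin k]→L[ℝ] ℝ) : ℝ :=
  (∑ I : Fin k → Fin n, ∑ J : Fin k → Fin n,
    (∏ a, gi g x (I a) (J a)) * (α (fun a => ee (I a)) * α (fun a => ee (J a)))) / k.factorial

/-- determinant of `n` vectors of `ℝⁿ` -/
def vdet {n : ℕ} (v : Fin n → E n) : ℝ := (Matrix.of fun i j => v i j).det

/-- concatenation of `k` and `l` vectors, `k + l = n` -/
def ap {n k l : ℕ} (h : k + l = n) (u : Fin k → E n) (w : Fin l → E n) : Fin n → E n :=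
  fun i => Fin.append u w (Fin.cast h.symm i)

/-- `τ` is the Hodge star of the `k`-form `φ` (`k + l = n`):
`(⋆φ)(w) = (√det g / k!) ∑ g^{i₁j₁} ... g^{i_kj_k} φ(∂_{j₁},...,∂_{j_k}) det(∂_{i₁},...,∂_{i_k},w₁,...,w_l)` -/
def IsStar {n k l : ℕ} (h : k + l = n) (g : E n → Bl n) (φ : E n → E n [⋀^Fin k]→L[ℝ] ℝ)
    (τ : E n → E n [⋀^Fin l]→L[ℝ] ℝ) : Prop :=
  ∀ x w, τ x w = vol g x / k.factorial * ∑ I : Fin k → Fin n, ∑ J : Fin k → Fin n,
    (∏ a, gi g x (I a) (J a)) * (φ x (fun a => ee (J a)) * vdet (ap h (fun a => ee (I a)) w))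

/-- `φ` is an `L²` harmonic `k`-form: smooth, `dφ = 0`, `d⋆φ = 0` and `∫ |φ|² dvol < ∞` -/
structure Harm {n k l : ℕ} (h : k + l = n) (g : E n → Bl n)
    (φ : E n → E n [⋀^Fin k]→L[ℝ] ℝ) : Prop where
  smooth : ContDiff ℝ ∞ φ
  closed : ∀ x, extDeriv φ x = 0
  coclosed : ∃ τ : E n → E n [⋀^Fin l]→L[ℝ] ℝ, ContDiff ℝ ∞ τ ∧ IsStar h g φ τ ∧
    ∀ x, extDeriv τ x = 0
  int : Integrable (fun x => nsq g k x (φ x) * vol g x)

/-! ## Auxiliary notions for the proofs -/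

/-- `(c, v)` is a geodesic on `[a,b]` with velocity `v` -/
structure Geo {n : ℕ} (Γ : E n → Bm n) (c v : ℝ → E n) (a b : ℝ) : Prop where
  dc : ∀ t ∈ Icc a b, HasDerivWithinAt c (v t) (Icc a b) t
  dv : ∀ t ∈ Icc a b, HasDerivWithinAt v (-(Γ (c t) (v t) (v t))) (Icc a b) t

/-- the points dividing `x, y` in the ratio `t : 1 - t` -/
def Gt {n : ℕ} (g : E n → Bl n) (t : ℝ) (x y : E n) : Set (E n) :=
  {z | dg g x z = t * dg g x y ∧ dg g z y = (1 - t) * dg g x y}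

/-- trace of a bilinear function with respect to `g` -/
def trg {n : ℕ} (g : E n → Bl n) (x : E n) (B : E n → E n → ℝ) : ℝ :=
  ∑ i, ∑ j, gi g x i j * B (ee i) (ee j)

/-- inner product of covectors -/
def ip {n : ℕ} (g : E n → Bl n) (x : E n) (a b : E n →L[ℝ] ℝ) : ℝ :=
  trg g x (fun u v => a u * b v)

/-- squared norm of a bilinear function (sum over all pairs of an orthonormal basis) -/
def nB {n : ℕ} (g : E n → Bl n) (x : E n) (B : E n → E n → ℝ) : ℝ :=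
  trg g x (fun u u' => trg g x (fun v v' => B u v * B u' v'))

/-- covariant derivative of a `1`-form: `(∇_u θ)(v)` -/
def cf {n : ℕ} (Γ : E n → Bm n) (θ : E n → E n →L[ℝ] ℝ) (x u v : E n) : ℝ :=
  fderiv ℝ θ x u v - θ x (Γ x u v)

/-- `|∇θ|²` -/
def N2 {n : ℕ} (g : E n → Bl n) (Γ : E n → Bm n) (θ : E n → E n →L[ℝ] ℝ) (x : E n) : ℝ :=
  nB g x (cf Γ θ x)

/-- exterior derivative of a `1`-form -/
def dd {n : ℕ} (θ : E n → E n →L[ℝ] ℝ) (x u v : E n) : ℝ := fderiv ℝ θ x u v - fderiv ℝ θ x v u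

/-- weighted divergence of a `1`-form: `e^f div(e^{-f} θ)` -/
def dl {n : ℕ} (g : E n → Bl n) (Γ : E n → Bm n) (f : E n → ℝ) (θ : E n → E n →L[ℝ] ℝ)
    (x : E n) : ℝ :=
  trg g x (cf Γ θ x) - ip g x (fderiv ℝ f x) (θ x)

/-- Hessian of a function -/
def Hs {n : ℕ} (Γ : E n → Bm n) (f : E n → ℝ) (x u v : E n) : ℝ :=
  fderiv ℝ (fderiv ℝ f) x u v - fderiv ℝ f x (Γ x u v)

/-- Riemannian measure -/
def mg {n : ℕ} (g : E n → Bl n) : Measure (E n) :=
  volume.withDensity (fun x => ENNReal.ofReal (vol g x))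

/-- smooth function with compact support -/
def Cc {n : ℕ} (u : E n → ℝ) : Prop := ContDiff ℝ ∞ u ∧ HasCompactSupport u

/-- a convex exhaustion function -/
structure Bus {n : ℕ} (g : E n → Bl n) (Γ : E n → Bm n) (p : E n) (b : E n → ℝ) (κ r0 : ℝ) :
    Prop where
  lip : ∀ x y, |b x - b y| ≤ dg g x y
  cvx : ∀ (c v : ℝ → E n) (s t : ℝ), s ≤ t → Geo Γ c v s t →
    ConvexOn ℝ (Icc s t) (fun τ => b (c τ))
  kpos : 0 < κ
  gro : ∀ x, r0 ≤ dg g p x → κ * dg g p x ≤ b x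
  prop : ∀ R, IsCompact {x | b x ≤ R}

end Helper62.LH
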