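import Pool.Agent.Helper62.LH.Defs

/-!
# Project LH, part G: geometry (statements with complete proofs in the docstrings)

THEOREM (whole project, MP_087a81_gt). For every complete Riemannian metric of nonnegative sectional
curvature on `ℝⁿ` the space of `L²` harmonic `k`-forms is finite dimensional for
`k = 0, 1, 2, n-2, n-1, n`; in particular for all `k` if `n ≤ 5`.

Every module `M_XX.lean` proves `theorem hXX : StXX` from the hypotheses named in its row (earlier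
statements are hypotheses, in the given order; fewer are fine). The geometry is index free: `g x u v`
is the metric, `Γ x u v` the Christoffel map, `fderiv ℝ g x w u v` the derivative of `g(u,v)` in the
direction `w`. Abbreviations in the proofs: `|v|_x = nr g x v`, `d = dg g`.
-/

set_option autoImplicit false

open Set Filter Topology MeasureTheory
open scoped ContDiff ENNReal

noncomputable section

namespace Helper62.LH

/-! ## Connection and curvature -/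

/-- CHE (80 lines). The Levi-Civita connection exists.
PROOF. For fixed `x` the linear map `z ↦ g x z` from `E n` to its dual is injective (`g x z z > 0` for `z ≠ 0`), so
bijective (`LinearEquiv.ofInjectiveEndo`-type argument by dimension, or `LinearMap.BilinForm` nondegeneracy). Let `S` be
the inverse. Put `Γ x u v = S (w ↦ (fderiv g x u v w + fderiv g x v u w - fderiv g x w u v)/2)`; it is bilinear in `u, v`
and continuous (finite dimension). -/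
def StChe : Prop := ∀ (n : ℕ) (g : E n → Bl n), IsMet g → ∃ Γ : E n → Bm n, IsChr g Γ

/-- CHR (120 lines). Smoothness, symmetry, metric compatibility.
PROOF. Nondegeneracy: if `g x z w = 0` for all `w` then `z = 0` (take `w = z`). Since `g x u v = g x v u`, the derivative
`fderiv g x w u v` is symmetric in `u, v`. Symmetry of `Γ`: the right side of `IsChr` is symmetric in `u, v`.
Compatibility: add the formula for `g (Γ w u) v` and `g (Γ w v) u`. Smoothness: by `contDiff_clm_apply_iff` (finite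
dimension, twice) it is enough that `x ↦ Γ x u v` is smooth; coordinates: `Γ x u v = ∑ i, (∑ j, gi g x i j * K j x) • ee i`,
`K j x = (fderiv g x u v (ee j) + ...)/2`; `gi` is smooth because `gm` is smooth and `det (gm g x) ≠ 0`
(the Gram matrix is positive definite), e.g. by `Matrix.inv_def` and the adjugate, or `contDiffAt_ringInverse`. -/
def StChr : Prop := ∀ (n : ℕ) (g : E n → Bl n) (Γ : E n → Bm n), IsMet g → IsChr g Γ →
  ContDiff ℝ ∞ Γ ∧ (∀ x u v, Γ x u v = Γ x v u) ∧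
  ∀ x w u v, fderiv ℝ g x w u v = g x (Γ x w u) v + g x u (Γ x w v)

/-- CUR (80 lines). `g(R(a,b)c,d) = - g(R(a,b)d,c)`. Hypotheses: StChr.
PROOF. Differentiate `fderiv g x b c d = g x (Γ x b c) d + g x c (Γ x b d)` in the direction `a` and use
compatibility again: `D²g(a,b)(c,d) = g(Γ(a,Γ(b,c)),d) + g(Γ(b,c),Γ(a,d)) + g(D_aΓ(b,c),d) + g(Γ(a,c),Γ(b,d))
+ g(c,Γ(a,Γ(b,d))) + g(c,D_aΓ(b,d))` (all at `x`, `D_aΓ = fderiv Γ x a`). The left side is symmetric in `a, b`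
(`ContDiffAt.isSymmSndFDerivAt`), the sum of the 2nd and the 4th term is symmetric in `a, b`. Subtract the formula
with `a, b` exchanged: `0 = g(R(a,b)c,d) + g(c,R(a,b)d)`. -/
def StCur : Prop := ∀ (n : ℕ) (g : E n → Bl n) (Γ : E n → Bm n), IsMet g → IsChr g Γ →
  ∀ x a b c d, g x (Rm Γ x a b c) d = - g x (Rm Γ x a b d) c

/-- SV (180 lines). Second variation at one time: `s = σ`, `u = σ'`, `a = ξ`, `b = ξ'`. Hypotheses: StChr.
PROOF. Let `q(τ) = s + τ a - (τ²/2) Γ_s(a,a)`, `r(τ) = u + τ b - (τ²/2)(DΓ_s(u)(a,a) + 2Γ_s(a,b))` and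
`Φ(τ,e,e') = g(q+e)(r+e',r+e')/2`, a smooth function of `(s,u,a,b,τ,e,e')`. All derivatives are bounded on the compact
set `K × [-1,1] × closedBall × closedBall`, so `|Φ(τ,e,e') - Φ(τ,0,0)| ≤ C(‖e‖+‖e'‖)` (mean value inequality on the
convex set of `(e,e')`), and `|Φ(τ) - Φ(0) - τΦ'(0) - (τ²/2)Φ''(0)| ≤ C|τ|³` (Taylor in `τ`). Derivatives along a curve
`(c(τ), q(τ))`: by compatibility `d/dτ [g_c(q,q)/2] = g_c(q,P)`, `P = q' + Γ_c(c',q)`, and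
`d/dτ g_c(q,P) = g_c(P,P) + g_c(q, P' + Γ_c(c',P))`. At `τ = 0` (with `c = q(τ)` above, `q = r(τ)`): `c' = a`, `q = u`,
`q' = b`, so `P = b + Γ(a,u) = b + Γ(u,a)`; `P' = q'' + DΓ(a)(a,u) + Γ(c'',u) + Γ(a,q')` with `c'' = -Γ(a,a)`,
`q'' = -DΓ(u)(a,a) - 2Γ(a,b)`; so `P' + Γ(a,P) = DΓ(a)(u,a) - DΓ(u)(a,a) + Γ(a,Γ(u,a)) - Γ(u,Γ(a,a)) = R(a,u)a`.
Hence `Φ'(0) = g(u, b + Γ(u,a))`, `Φ''(0) = g(P,P) + g(R(a,u)a,u)`. -/
def StSv : Prop := ∀ (n : ℕ) (g : E n → Bl n) (Γ : E n → Bm n), IsMet g → IsChr g Γ →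
  ∀ K : Set (E n × E n × E n × E n), IsCompact K → ∃ C : ℝ, 0 ≤ C ∧
    ∀ s u a b : E n, (s, u, a, b) ∈ K → ∀ τ : ℝ, |τ| ≤ 1 → ∀ e e' : E n, ‖e‖ ≤ 1 → ‖e'‖ ≤ 1 →
      g (s + τ • a - (τ ^ 2 / 2) • Γ s a a + e)
        (u + τ • b - (τ ^ 2 / 2) • (fderiv ℝ Γ s u a a + (2 : ℝ) • Γ s a b) + e')
        (u + τ • b - (τ ^ 2 / 2) • (fderiv ℝ Γ s u a a + (2 : ℝ) • Γ s a b) + e') / 2 ≤
      g s u u / 2 + τ * g s u (b + Γ s u a) +
        τ ^ 2 / 2 * (g s (b + Γ s u a) (b + Γ s u a) + g s (Rm Γ s a u a) u) +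
        C * (|τ| ^ 3 + ‖e‖ + ‖e'‖)

/-! ## Riemannian distance -/

/-- CMP (60 lines). PROOF. `g x v v` is continuous and positive on the compact set `K × sphere 0 1`; homogeneity.
(If `K` is empty or `n = 0` take `m = M = 1`.) -/
def StCmp : Prop := ∀ (n : ℕ) (g : E n → Bl n), IsMet g → ∀ K : Set (E n), IsCompact K →
  ∃ m M : ℝ, 0 < m ∧ 0 < M ∧ ∀ x ∈ K, ∀ v, m * ‖v‖ ^ 2 ≤ g x v v ∧ g x v v ≤ M * ‖v‖ ^ 2

/-- MET (180 lines). Basic properties of the distance.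
PROOF. The set of lengths is bounded below by `0` and nonempty (straight line). Pieces: `t ↦ c (s + (t'-s) t)` is `C¹`
and has length `∫_s^{t'}` (substitution). Near minimisers: `exists_lt_of_csInf_lt`. `d x x = 0`: constant curve.
Symmetry: `t ↦ c (1 - t)`. Triangle inequality: let `σ = Real.smoothTransition` (smooth, `0` for `t ≤ 0`, `1` for
`1 ≤ t`, nondecreasing); for `C¹` curves `c₁` from `x` to `y`, `c₂` from `y` to `z` the curve
`c t = c₁ (σ (2 t)) + c₂ (σ (2 t - 1)) - y` is `C¹`, goes from `x` to `z`; on `[0,1/2]` it is `c₁ (σ (2 t))`, on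
`[1/2,1]` it is `c₂ (σ (2t - 1))`; substitution `s = σ (2 t)` gives `len c = len c₁ + len c₂`. -/
def StMet : Prop := ∀ (n : ℕ) (g : E n → Bl n), IsMet g →
  (∀ (c : ℝ → E n), ContDiff ℝ 1 c → ∀ s t : ℝ, s ≤ t →
    dg g (c s) (c t) ≤ ∫ τ in s..t, nr g (c τ) (deriv c τ)) ∧
  (∀ x y (η : ℝ), 0 < η → ∃ c : ℝ → E n, ContDiff ℝ 1 c ∧ c 0 = x ∧ c 1 = y ∧
    len g c < dg g x y + η) ∧
  (∀ x y, 0 ≤ dg g x y) ∧ (∀ x, dg g x x = 0) ∧ (∀ x y, dg g x y = dg g y x) ∧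
  ∀ x y z, dg g x z ≤ dg g x y + dg g y z

/-- LOC (160 lines). The distance is close to the norm of `g x₀` near `x₀`. Hypotheses: StCmp StMet.
PROOF. First claim with some radius `ρ`: continuity of `g` and compactness of the unit sphere. Let
`m₀‖v‖ ≤ |v|_{x₀} ≤ M₀‖v‖` and `r = m₀ρ/(2(m₀ + 2M₀))`. Let `y, z ∈ ball x₀ r`. Upper bound: the segment has length
`≤ (1+ε)|z-y|_{x₀}`. Lower bound: let `c` be a `C¹` curve from `y` to `z`. If `c t ∈ ball x₀ ρ` for all `t ∈ [0,1]`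
then `len c ≥ (1-ε) ∫ |c'|_{x₀} ≥ (1-ε)|z-y|_{x₀}` (Cauchy-Schwarz for `g x₀`:
`|z-y|² = g x₀ (z-y) ∫ c' = ∫ g x₀ (z-y) c' ≤ |z-y| ∫ |c'|`). Otherwise let `T` be the first time with
`‖c T - x₀‖ = ρ`; the same on `[0,T]` gives `len c ≥ (1-ε)|c T - y|_{x₀} ≥ (1-ε) m₀ (ρ - r) ≥ (1-ε) M₀ 2r
≥ (1-ε)|z-y|_{x₀}`. Take the infimum over `c`. -/
def StLoc : Prop := ∀ (n : ℕ) (g : E n → Bl n), IsMet g → ∀ (x₀ : E n) (ε : ℝ), 0 < ε → ε < 1 →
  ∃ r > 0, (∀ x ∈ Metric.ball x₀ r, ∀ v, (1 - ε) * nr g x₀ v ≤ nr g x v ∧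
      nr g x v ≤ (1 + ε) * nr g x₀ v) ∧
    ∀ y ∈ Metric.ball x₀ r, ∀ z ∈ Metric.ball x₀ r,
      (1 - ε) * nr g x₀ (z - y) ≤ dg g y z ∧ dg g y z ≤ (1 + ε) * nr g x₀ (z - y)

/-- DLC (120 lines). The distance defines the topology of `ℝⁿ`. Hypotheses: StCmp StMet StLoc.
PROOF. (1) Let `r₀` be from LOC at `x` with `ε = 1/2`, `r' = min r (r₀/2)`, `m₀‖v‖ ≤ |v|_x`, `δ = m₀ r'/2`. If
`‖y - x‖ ≥ r'` then every `C¹` curve `c` from `x` to `y` has a point `z = c T` with `‖z - x‖ = r'`, so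
`len c ≥ d x z ≥ |z-x|_x/2 ≥ m₀r'/2` (first part of MET on `[0,T]`, the rest of the length is `≥ 0`); so `d x y ≥ δ`.
(2) follows from (1). (3) `|d x y - d x' y'| ≤ d x x' + d y y'` and `d x x' ≤ 2|x'-x|_x → 0` by LOC. -/
def StDlc : Prop := ∀ (n : ℕ) (g : E n → Bl n), IsMet g →
  (∀ (x : E n) (r : ℝ), 0 < r → ∃ δ > 0, ∀ y, dg g x y < δ → ‖y - x‖ < r) ∧
  (∀ x y, dg g x y = 0 → x = y) ∧ Continuous (fun q : E n × E n => dg g q.1 q.2)

/-- HR (250 lines). Hopf-Rinow: closed balls of a complete metric are compact. Hypotheses: StMet StDlc.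
PROOF. `B r = {x | d p x ≤ r}` is closed (DLC). Let `S = {r ≥ 0 | B r compact}`. (0) Splitting points: if
`d p x ≤ r + η'` with `0 ≤ r`, `η' < η`, there is `z` with `d p z ≤ r`, `d z x < η`: take a `C¹` curve `c` of length
`< r + η` from `p` to `x` and `T` with `∫_0^T |c'| = min r (len c)` (intermediate values), `z = c T`. (1) `S` is an
interval containing a small `r > 0`: by DLC (1) `B r` is contained in a closed Euclidean ball for small `r`. The same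
holds at every point `x`: there is `ρ_x > 0` with `{y | d x y ≤ 2ρ_x}` compact. (2) If `r ∈ S` then `r + δ/2 ∈ S` for
some `δ > 0`: cover `B r` by finitely many sets `{y | d x_i y < ρ_i}`, `δ = min ρ_i`; by (0) `B (r+δ/2)` is contained
in the union of the compact sets `{y | d x_i y ≤ 2ρ_i}`. (3) If `[0,R) ⊆ S` then `R ∈ S`: let `x_k ∈ B R`. By (0) for
every `j ≥ 1` there are `z_k^j ∈ B (R - 1/j)` (or `B 0`) with `d z_k^j x_k ≤ 2/j`; by compactness of `B (R-1/j)` and a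
diagonal argument (or: `B R` is totally bounded for `d`, and `d` is a complete metric) a subsequence of `x_k` is Cauchy
for `d`, converges for `d` by `Cpl`, so converges in `ℝⁿ` by DLC (1). (4) So `S = [0,∞)` (supremum argument). It can be
convenient to use the type synonym of `E n` with the metric space structure given by `d`; its topology is the usual
one by DLC. -/
def StHr : Prop := ∀ (n : ℕ) (g : E n → Bl n), IsMet g → Cpl g →
  ∀ (p : E n) (R : ℝ), IsCompact {x | dg g p x ≤ R}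

/-- a metric geodesic from `x` to `y` -/
def MGeo {n : ℕ} (g : E n → Bl n) (c : ℝ → E n) (x y : E n) : Prop :=
  c 0 = x ∧ c 1 = y ∧ ∀ s ∈ Icc (0 : ℝ) 1, ∀ t ∈ Icc (0 : ℝ) 1,
    dg g (c s) (c t) = |s - t| * dg g x y

/-- MG (120 lines). Metric geodesics exist. Hypotheses: StMet StDlc StHr.
PROOF. `L = d x y`, `B = {z | d x z ≤ L + 1}` compact. In the compact space of all maps `Icc 0 1 → B` (Tychonoff,
`isCompact_univ_pi`) the sets `K_ε = {c | c 0 = x, c 1 = y, ∀ s t, d (c s) (c t) ≤ |s-t| (L + ε)}`, `0 < ε ≤ 1`, are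
closed (continuity of `d`), decreasing, and nonempty: take a `C¹` curve `γ` of length `ℓ < L + ε` and for `s ∈ [0,1]`
a `T(s) ∈ [0,1]` with `∫_0^{T(s)} |γ'| = s ℓ`, `T(0) = 0`, `T(1) = 1`; `c s = γ (T s)` (MET, first part, gives
`d (c s) (c t) ≤ |s-t| ℓ`; `d x (c s) ≤ ℓ ≤ L+1`). So the intersection is nonempty: `d (c s) (c t) ≤ |s-t| L`, and
equality follows from `L = d x y ≤ d x (c s) + d (c s) (c t) + d (c t) y`. -/
def StMg : Prop := ∀ (n : ℕ) (g : E n → Bl n), IsMet g → Cpl g →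
  ∀ x y : E n, ∃ c : ℝ → E n, MGeo g c x y

/-- LL (150 lines). The length of a Lipschitz curve is at least the distance. Hypotheses: StCmp StMet StLoc.
PROOF. `φ t = d (γ 0) (γ t)`; on `[0,1]` the curve stays in a closed Euclidean ball, where `d y z ≤ √M ‖y - z‖`
(segment, CMP), so `φ` is Lipschitz on `[0,1]`, hence absolutely continuous and `φ 1 - φ 0 = ∫_0^1 φ'` (Mathlib:
`AbsolutelyContinuousOnInterval`, file `MeasureTheory/Integral/IntervalIntegral/AbsolutelyContinuousFun.lean`). At almost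
every `t` both `φ` and `γ` are differentiable (Rademacher, `LipschitzWith.ae_differentiableAt`) and by LOC at `γ t`:
`|φ(t+h) - φ(t)| ≤ d (γ t) (γ (t+h)) ≤ (1+ε)|γ(t+h) - γ(t)|_{γ t}` for small `h`, so `φ'(t) ≤ |γ'(t)|_{γ t}`. The
function `t ↦ |γ'(t)|_{γ t}` is bounded and measurable on `[0,1]`. Integrate. -/
def StLl : Prop := ∀ (n : ℕ) (g : E n → Bl n), IsMet g → ∀ (γ : ℝ → E n) (K : NNReal),
  LipschitzWith K γ → dg g (γ 0) (γ 1) ≤ ∫ t in (0 : ℝ)..1, nr g (γ t) (deriv γ t)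

/-- DGE (100 lines). Distance and energy of a curve which is `C¹` on `[0,1]`. Hypotheses: StLl.
PROOF. Let `γ = c ∘ proj` with `proj` the projection to `[0,1]`; `γ` is Lipschitz (`v` is bounded), `deriv γ t = v t`
for `0 < t < 1`. By LL `d ≤ ∫ |v|`, and `(∫_0^1 |v|)² ≤ ∫_0^1 |v|²` (Cauchy-Schwarz or `(a - |v|)² ≥ 0`,
`a = ∫ |v|`). -/
def StDge : Prop := ∀ (n : ℕ) (g : E n → Bl n), IsMet g → ∀ (c v : ℝ → E n),
  (∀ t ∈ Icc (0 : ℝ) 1, HasDerivWithinAt c (v t) (Icc 0 1) t) → ContinuousOn v (Icc 0 1) →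
  dg g (c 0) (c 1) ^ 2 ≤ ∫ t in (0 : ℝ)..1, g (c t) (v t) (v t)

/-- DBR (120 lines). Lemma of du Bois-Reymond.
PROOF. `R t = P t - ∫_0^t Q`. Integration by parts: `∫ Q(ξ) = - ∫ (∫_0^t Q)(ξ')`, so `∫_0^1 R(ξ') = 0`. Fix a vector
`v` and a smooth `η₀` with support in `(0,1)`, `∫ η₀ = 1`. For smooth `η` with compact support in `(0,1)` the function
`ξ t = (∫_0^t (η - (∫η) η₀)) v` is a test function, so `∫ R(v) η = (∫ η) c`, `c = ∫ R(v) η₀`; so `R(v) - c`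
is orthogonal to all test functions and vanishes almost everywhere
(`IsOpen.ae_eq_zero_of_integral_contDiff_smul_eq_zero`). Use a basis for `v`. -/
def StDbr : Prop := ∀ (n : ℕ) (P Q : ℝ → E n →L[ℝ] ℝ), IntervalIntegrable P volume 0 1 →
  IntervalIntegrable Q volume 0 1 →
  (∀ ξ : ℝ → E n, ContDiff ℝ ∞ ξ → HasCompactSupport ξ → tsupport ξ ⊆ Ioo 0 1 →
    ∫ t in (0 : ℝ)..1, (P t (deriv ξ t) + Q t (ξ t)) = 0) →
  ∃ C : E n →L[ℝ] ℝ, ∀ᵐ t ∂(volume.restrict (Icc (0 : ℝ) 1)), P t = C + ∫ s in (0 : ℝ)..t, Q s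

/-- RGA (180 lines). A metric geodesic is Lipschitz with constant speed almost everywhere. Hypotheses: StCmp StMet
StLoc StDlc StLl.
PROOF. `L = d x y`. `c` is continuous on `[0,1]` by DLC (1), its image `K` is compact. There are `δ₀, a > 0` with
`a‖y-z‖ ≤ d y z` for all `y, z ∈ K`: for `y, z` closer than a Lebesgue number by LOC (`ε = 1/2`) and CMP, for the
others because `d > 0` is bounded below on a compact set. So `c` is Lipschitz on `[0,1]`; `γ = c ∘ proj`,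
`proj` = projection to `[0,1]`, is Lipschitz on `ℝ`. At a point `t ∈ (0,1)` of differentiability (almost every one, Rademacher) LOC gives
`(1-ε)|γ(t+h)-γ(t)|_{γ t} ≤ d = |h| L`, so `|γ'(t)| ≤ L`. By LL `L ≤ ∫_0^1 |γ'| ≤ L`, so `|γ'| = L` almost
everywhere. -/
def StRga : Prop := ∀ (n : ℕ) (g : E n → Bl n), IsMet g → ∀ (c : ℝ → E n) (x y : E n),
  MGeo g c x y → ∃ (γ : ℝ → E n) (K : NNReal), LipschitzWith K γ ∧ (∀ t ∈ Icc (0 : ℝ) 1, γ t = c t) ∧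
    ∀ᵐ t ∂(volume.restrict (Icc (0 : ℝ) 1)), DifferentiableAt ℝ γ t ∧
      g (γ t) (deriv γ t) (deriv γ t) = dg g x y ^ 2

/-- RGB (150 lines). First variation. Hypotheses: StLl.
PROOF. `L = d (γ 0) (γ 1)`. For real `τ` the curve `γ + τξ` is Lipschitz with the same end points, so by LL and
Cauchy-Schwarz `L² ≤ e(τ) = ∫_0^1 g(γ+τξ)(γ'+τξ')(γ'+τξ')`. `γ', ξ, ξ'` are bounded and `g` is smooth, so
`|g(γ+τξ)(γ'+τξ')(γ'+τξ') - g(γ)(γ')(γ') - 2τ(g(γ)(γ')(ξ') + Dg(γ)(ξ)(γ')(γ')/2)| ≤ Cτ²` for `|τ| ≤ 1` (almost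
every `t`), and `e(0) = L²`. So `0 ≤ 2τI + Cτ²` for all small `τ` of both signs, `I = 0`. -/
def StRgb : Prop := ∀ (n : ℕ) (g : E n → Bl n), IsMet g → ∀ (γ : ℝ → E n) (K : NNReal),
  LipschitzWith K γ →
  (∀ᵐ t ∂(volume.restrict (Icc (0 : ℝ) 1)), DifferentiableAt ℝ γ t ∧
      g (γ t) (deriv γ t) (deriv γ t) = dg g (γ 0) (γ 1) ^ 2) →
  ∀ ξ : ℝ → E n, ContDiff ℝ ∞ ξ → HasCompactSupport ξ → tsupport ξ ⊆ Ioo 0 1 →
    ∫ t in (0 : ℝ)..1, (g (γ t) (deriv γ t) (deriv ξ t) +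
      fderiv ℝ g (γ t) (ξ t) (deriv γ t) (deriv γ t) / 2) = 0

/-- RGC (180 lines). A metric geodesic is a geodesic. Hypotheses: StChr StRga StRgb StDbr.
PROOF. Take `γ` from RGA; RGB applies (`γ 0 = x`, `γ 1 = y`). DBR with `P t = g (γ t) (γ' t)`,
`Q t z = Dg(γ t)(z)(γ' t)(γ' t)/2` (bounded, measurable) gives `P t = p t := C + ∫_0^t Q` almost everywhere, `p`
continuous. The map `z ↦ g x z` is invertible (positive definite), its inverse `S x` depends continuously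
(smoothly) on `x` (`ContinuousLinearEquiv` inverse is smooth, or Cramer); `v t = S (γ t) (p t)` is continuous on `[0,1]`,
`γ' = v` almost everywhere, so `γ t = γ 0 + ∫_0^t v` (`γ` is absolutely continuous) and `c` has derivative `v` on
`[0,1]`. Now `Q t z = Dg(γ t)(z)(v t)(v t)/2` almost everywhere, which is continuous, so `p` is `C¹` with
`p' z = Dg(γ)(z)(v)(v)/2`; `v = S(γ) p` is differentiable, and differentiating `g(γ t)(v t)(z) = p t z`: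
`Dg(γ)(v)(v)(z) + g(γ)(v')(z) = Dg(γ)(z)(v)(v)/2`, that is `g(v',z) = - g(Γ(v,v),z)` by `IsChr`; so `v' = -Γ(v,v)`.
Speed: `g(v,v) = L²` almost everywhere and both sides are continuous. -/
def StRgc : Prop := ∀ (n : ℕ) (g : E n → Bl n) (Γ : E n → Bm n), IsMet g → IsChr g Γ →
  ∀ (c : ℝ → E n) (x y : E n), MGeo g c x y → ∃ v : ℝ → E n, Geo Γ c v 0 1 ∧
    ∀ t ∈ Icc (0 : ℝ) 1, g (c t) (v t) (v t) = dg g x y ^ 2

/-! ## Second variation and comparison -/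

/-- LOD (120 lines). Linear differential equations on `[0,1]`, initial value at `1`.
PROOF. `A` is bounded by `K` on `[0,1]`; Picard iteration: the map `V ↦ (t ↦ v₀ - ∫_t^1 A s (V s) ds)` on
`C([0,1],E n)` has an iterate which is a contraction (factor `K^m/m!`); or Picard-Lindelof on intervals of length
`1/(2K+1)` and gluing; the fixed point is the solution (fundamental theorem of calculus). -/
def StLod : Prop := ∀ (n : ℕ) (A : ℝ → E n →L[ℝ] E n) (v₀ : E n), ContinuousOn A (Icc 0 1) →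
  ∃ V : ℝ → E n, V 1 = v₀ ∧ ∀ t ∈ Icc (0 : ℝ) 1, HasDerivWithinAt V (A t (V t)) (Icc 0 1) t

/-- PTR (100 lines). Parallel transport and constant speed. Hypotheses: StChr StLod.
PROOF. (1) LOD with `A t = -Γ (c t) (v t)` (continuous). `d/dt g(c)(V,V) = Dg(c)(v)(V)(V) + 2 g(c)(V',V)
= 2 g(Γ(v,V),V) - 2 g(Γ(v,V),V) = 0` by compatibility, so it is constant on `[0,1]`. (2) The same computation with
`V = v`. -/
def StPtr : Prop := ∀ (n : ℕ) (g : E n → Bl n) (Γ : E n → Bm n), IsMet g → IsChr g Γ →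
  (∀ (c v : ℝ → E n) (v₀ : E n), (∀ t ∈ Icc (0 : ℝ) 1, HasDerivWithinAt c (v t) (Icc 0 1) t) →
    ContinuousOn v (Icc 0 1) → ∃ V : ℝ → E n, V 1 = v₀ ∧
      (∀ t ∈ Icc (0 : ℝ) 1, HasDerivWithinAt V (-(Γ (c t) (v t) (V t))) (Icc 0 1) t) ∧
      ∀ t ∈ Icc (0 : ℝ) 1, g (c t) (V t) (V t) = g (c 1) v₀ v₀) ∧
  ∀ (c v : ℝ → E n) (a b : ℝ), Geo Γ c v a b → ∀ t ∈ Icc a b,
    g (c t) (v t) (v t) = g (c a) (v a) (v a)

/-- UP (220 lines). Upper barrier for the squared distance along a geodesic: here the curvature is used. Hypotheses: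
StChr StCur StSv StMg StDge StRgc StPtr.
PROOF. `y = β τ₀`, `ν = w τ₀`. By MG and RGC there is `(c,v)` with `Geo Γ c v 0 1`, `c 0 = p`, `c 1 = y`,
`g(v,v) = L²`, `L = d p y`. By PTR there is a parallel field `V` along `c` with `V 1 = ν`, `g(V,V) = g(ν,ν)`. Let
`r(h) = β(τ₀+h) - (y + hν - (h²/2)Γ_y(ν,ν)) = o(h²)` (second order Taylor expansion of `β` at the interior point
`τ₀`: `β' = w`, `w'(τ₀) = -Γ(ν,ν)`). For small `h` let, for `s ∈ [0,1]`,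
`q_h(s) = c s + h s V s - (h² s²/2) Γ_{c s}(V s, V s) + s r(h)`; `q_h(0) = p`, `q_h(1) = β(τ₀+h)`, and `q_h'(s)` is
`u + h b - (h²/2)(DΓ(u)(a,a) + 2Γ(a,b)) + r(h)` with `u = v s`, `a = s V s`, `b = V s + s V' s`, `V' = -Γ(v,V)`.
Here `b + Γ(u,a) = V s`. SV on the compact set of these `(c s, u, a, b)` with `e = s r(h)`, `e' = r(h)` gives
`g(q_h')/2 ≤ L²/2 + h g(v,V) + (h²/2)(g(ν,ν) + g(R(a,u)a,u)) + C(|h|³ + 2‖r(h)‖)`, and
`g(R(a,u)a,u) = -g(R(a,u)u,a) ≤ 0` by CUR and `Sec`. Integrate over `s` and use DGE: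
`d(p,β(τ₀+h))²/2 ≤ L²/2 + αh + (h²/2) g(ν,ν) + o(h²)`, `α = ∫_0^1 g(v,V)`. -/
def StUp : Prop := ∀ (n : ℕ) (g : E n → Bl n) (Γ : E n → Bm n), IsMet g → IsChr g Γ → Cpl g →
  Sec g Γ → ∀ (p : E n) (β w : ℝ → E n) (a b τ₀ : ℝ), Geo Γ β w a b → τ₀ ∈ Ioo a b →
  ∃ α : ℝ, ∀ ε > 0, ∀ᶠ τ in 𝓝 τ₀, dg g p (β τ) ^ 2 / 2 ≤ dg g p (β τ₀) ^ 2 / 2 +
    α * (τ - τ₀) + (g (β τ₀) (w τ₀) (w τ₀) / 2 + ε) * (τ - τ₀) ^ 2

/-- CC (80 lines). Barriers give concavity.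
PROOF. Let `ψ = φ - (K + 2ε)τ²`, `ε > 0`. It is enough that `ψ` is concave on `[a,b]` for every `ε > 0`. Suppose for
some `a ≤ s < t ≤ b` and the chord `ℓ` of `ψ` between `s` and `t` the continuous function `ψ - ℓ` is negative
somewhere on `[s,t]`; it has a negative minimum at an interior point `τ₀`. By hypothesis
`(ψ-ℓ)(τ) ≤ (ψ-ℓ)(τ₀) + α'(τ-τ₀) - ε(τ-τ₀)²` near `τ₀` for some `α'`; taking `τ ≠ τ₀` near `τ₀` with
`α'(τ-τ₀) ≤ 0` contradicts minimality. -/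
def StCc : Prop := ∀ (φ : ℝ → ℝ) (a b K : ℝ), a ≤ b → ContinuousOn φ (Icc a b) →
  (∀ τ₀ ∈ Ioo a b, ∃ α : ℝ, ∀ ε > 0, ∀ᶠ τ in 𝓝 τ₀,
    φ τ ≤ φ τ₀ + α * (τ - τ₀) + (K + ε) * (τ - τ₀) ^ 2) →
  ConcaveOn ℝ (Icc a b) (fun τ => φ τ - K * τ ^ 2)

/-- ALX (150 lines). Alexandrov comparison. Hypotheses: StMet StDlc StMg StRgc StPtr StUp StCc.
PROOF. (1) UP, CC with `φ = d(q,β)²/2`, `K = g(w,w)/2` (constant by PTR (2)); multiply by `2`. (2) `L = d x y`. If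
`t = 0` then `d x z = 0`, `z = x`; if `t = 1` then `z = y`; clear. Let `0 < t < 1`, `c₁, c₂` metric geodesics from `x`
to `z` and from `z` to `y`; `c s = c₁(s/t)` for `s ≤ t`, `c s = c₂((s-t)/(1-t))` for `s > t`. It is a metric
geodesic from `x` to `y`: for `s ≤ t ≤ s'`, `d (c s) (c s') ≤ (t-s)L + (s'-t)L` and
`≥ L - sL - (1-s')L`. By RGC and (1) on `[0,1]` (speed² `= L²`), concavity at `t` between `0` and `1`:
`d(q,z)² - L²t² ≥ (1-t) d(q,x)² + t (d(q,y)² - L²)`. -/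
def StAlx : Prop := ∀ (n : ℕ) (g : E n → Bl n) (Γ : E n → Bm n), IsMet g → IsChr g Γ → Cpl g →
  Sec g Γ →
  (∀ (q : E n) (β w : ℝ → E n) (a b : ℝ), a ≤ b → Geo Γ β w a b →
    ConcaveOn ℝ (Icc a b) (fun τ => dg g q (β τ) ^ 2 - g (β a) (w a) (w a) * τ ^ 2)) ∧
  ∀ (x y z q : E n) (t : ℝ), t ∈ Icc (0 : ℝ) 1 → z ∈ Gt g t x y →
    (1 - t) * dg g q x ^ 2 + t * dg g q y ^ 2 - t * (1 - t) * dg g x y ^ 2 ≤ dg g q z ^ 2

/-- NC (40 lines). Intermediate points are not contracted too much. Hypotheses: StMet StAlx.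
PROOF. ALX (2) for `y' ∈ Gt t x y` and `q = z`: `d(z,y')² ≥ (1-t)d(z,x)² + t d(z,y)² - t(1-t)d(x,y)²`. ALX (2) for
`z' ∈ Gt t x z` and `q = y'`: `d(y',z')² ≥ (1-t)d(y',x)² + t d(y',z)² - t(1-t)d(x,z)²`, `d(y',x) = t d(x,y)`.
Together `d(y',z')² ≥ t² d(y,z)²`. -/
def StNc : Prop := ∀ (n : ℕ) (g : E n → Bl n) (Γ : E n → Bm n), IsMet g → IsChr g Γ → Cpl g →
  Sec g Γ → ∀ (x y z y' z' : E n) (t : ℝ), t ∈ Icc (0 : ℝ) 1 → y' ∈ Gt g t x y →
    z' ∈ Gt g t x z → t * dg g y z ≤ dg g y' z'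

/-! ## Convex exhaustion -/

/-- the Busemann type function `limsup_{y → ∞} (d p y - d x y)` -/
def bf {n : ℕ} (g : E n → Bl n) (p x : E n) : ℝ :=
  limsup (fun y => dg g p y - dg g x y) (cocompact (E n))

/-- BFA (180 lines). It is `1`-Lipschitz and convex along geodesics. Hypotheses: StMet StDlc StHr StAlx.
PROOF. `n ≥ 1`, so the filter `cocompact` is nontrivial; `|d p y - d x y| ≤ d p x`, so the limsup is over a bounded
function (use `limsup` lemmas with `IsBoundedUnder`). `|(d p y - d x y) - (d p y - d x' y)| ≤ d x x'`: Lipschitz.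
Convexity: `Geo Γ c v s t`, `τ₁, τ₂ ∈ [s,t]`, `τ = (1-λ)τ₁ + λτ₂`, `K = g(v,v)` at `s`, `D(τ) = d y (c τ)`. ALX (1)
with `q = y`: `D(τ)² ≥ (1-λ)D(τ₁)² + λD(τ₂)² - K' ≥ m² - K'`, `m = (1-λ)D(τ₁) + λD(τ₂)`,
`K' = Kλ(1-λ)(τ₂-τ₁)² ≥ 0`; so if `m² ≥ K'`, `m > 0`: `D(τ) ≥ √(m²-K') ≥ m - K'/m`. As `y → ∞` (cocompact) `m → ∞`,
because `d x₁ y → ∞` (HR: `{y | d x₁ y ≤ R}` is compact). So with `f_y(τ) = d p y - D(τ)`:
`f_y(τ) ≤ (1-λ)f_y(τ₁) + λf_y(τ₂) + K'/m`; take the limsup. `bf p p = 0`. -/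
def StBfa : Prop := ∀ (n : ℕ) (g : E n → Bl n) (Γ : E n → Bm n), 1 ≤ n → IsMet g → IsChr g Γ →
  Cpl g → Sec g Γ → ∀ p : E n, bf g p p = 0 ∧ (∀ x y, |bf g p x - bf g p y| ≤ dg g x y) ∧
    ∀ (c v : ℝ → E n) (s t : ℝ), s ≤ t → Geo Γ c v s t →
      ConvexOn ℝ (Icc s t) (fun τ => bf g p (c τ))

/-- BUS (220 lines). The function is proper, of linear growth. Hypotheses: StMet StDlc StHr StMg StRgc StBfa.
PROOF. `p = 0`, `b = bf g p`. (a) For every `C` there is `ρ` with `b x ≤ C → d p x ≤ ρ`. Otherwise there are `x_k` with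
`b x_k ≤ C`, `d p x_k → ∞`. Let `T = max 0 C + 1`, `c_k` a metric geodesic from `p` to `x_k`,
`z_k = c_k (T/d p x_k)` (`k` large), `d p z_k = T`, `d z_k x_k = d p x_k - T`. By RGC and convexity on `[0,1]`:
`b z_k ≤ max (b p) (b x_k) ≤ max 0 C`. By HR a subsequence `z_k → z`, `b z ≤ max 0 C`. The points `x_k` tend to
infinity in `cocompact` (they leave every compact set as `d p` is continuous), so
`b z ≥ limsup_k (d p x_k - d z x_k) ≥ lim (T - d z z_k) = T`: contradiction. (b) Sublevel sets are closed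
(`b` is continuous) and contained in compact balls. (c) Growth: let `ρ` be from (a) for `C = 1`, `r₀ = max ρ 0 + 1`. If
`d p x ≥ r₀` let `z` be the point with `d p z = r₀` on a metric geodesic from `p` to `x`: `b z > 1`, and convexity
gives `b z ≤ (r₀/d p x) b x`; so `b x ≥ d p x / r₀`. -/
def StBus : Prop := ∀ (n : ℕ) (g : E n → Bl n) (Γ : E n → Bm n), 1 ≤ n → IsMet g → IsChr g Γ →
  Cpl g → Sec g Γ → ∃ (p : E n) (b : E n → ℝ) (κ r0 : ℝ), Bus g Γ p b κ r0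

/-! ## Smoothing -/

/-- GE (200 lines). Short geodesics with uniform expansion. Hypotheses: StChr.
PROOF. The vector field `F(x,v) = (v, -Γ_x(v,v))` on `E n × E n` is smooth. By Picard-Lindelof with uniform initial data
(`ContDiffAt.exists_forall_mem_closedBall_exists_eq_forall_mem_Ioo_hasDerivAt` or `IsPicardLindelof`) and compactness of
`K × closedBall 0 1` there are `h₀ > 0` and a bounded set `B` such that for all `x ∈ K`, `‖v‖ ≤ 1` there is a solution on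
`[-h₀,h₀]` which stays in `B`. (If the solution of the library statement comes without a bound, shrink `h₀`: as long as
the solution is at distance `≤ 1` from its initial value its speed is `≤ C`.) On `B`: `F` and `DF` are bounded, so
`‖c t - x‖ ≤ C|t|`, `‖w t - v‖ ≤ C|t|`, `‖w'(t) - w'(0)‖ = ‖Γ_{c t}(w t,w t) - Γ_x(v,v)‖ ≤ C|t|`; integrate twice. -/
def StGe : Prop := ∀ (n : ℕ) (g : E n → Bl n) (Γ : E n → Bm n), IsMet g → IsChr g Γ →
  ∀ K : Set (E n), IsCompact K → ∃ h₀ C : ℝ, 0 < h₀ ∧ 0 ≤ C ∧ ∀ x ∈ K, ∀ v : E n, ‖v‖ ≤ 1 →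
    ∃ c w : ℝ → E n, Geo Γ c w (-h₀) h₀ ∧ c 0 = x ∧ w 0 = v ∧
      ∀ h : ℝ, |h| ≤ h₀ → ‖c h - (x + h • v - (h ^ 2 / 2) • Γ x v v)‖ ≤ C * |h| ^ 3

/-- DEL (120 lines). Small positive smooth functions.
PROOF. We may assume `c` nonincreasing (replace by the running minimum). Let `χ : ℝ → ℝ` be smooth, `0 ≤ χ ≤ 1`,
`χ s > 0` for `|s| < 1`, `χ s = 0` for `|s| ≥ 1`, `|χ'|, |χ''| ≤ A`. `δ x = ∑_{j ≥ 0} a_j χ(‖x‖² - j)` with
`a_j = c (j+1)/(20(A+1)(j+2))` (locally finite sum, smooth). For `‖x‖² ∈ [m,m+1)` only `j = m, m+1` contribute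
(and `j = m` contributes a positive amount, or `j = m + 1`), `‖D(‖x‖²)‖ = 2‖x‖ ≤ 2√(m+1)`, `D²(‖x‖²) = 2`, so all three
quantities are `≤ 2 a_m (A(4(m+1)+2) + 1) ≤ c (m+1) ≤ c ⌊‖x‖⌋` as `⌊‖x‖⌋ ≤ ⌊‖x‖²⌋ + 1`. -/
def StDel : Prop := ∀ (n : ℕ) (c : ℕ → ℝ), (∀ j, 0 < c j) → ∃ δ : E n → ℝ, ContDiff ℝ ∞ δ ∧
  ∀ x, 0 < δ x ∧ δ x ≤ c ⌊‖x‖⌋₊ ∧ ‖fderiv ℝ δ x‖ ≤ c ⌊‖x‖⌋₊ ∧
    ‖fderiv ℝ (fderiv ℝ δ) x‖ ≤ c ⌊‖x‖⌋₊

/-- a standard mollifier -/
structure Mol {n : ℕ} (ρ : E n → ℝ) : Prop where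
  smooth : ContDiff ℝ ∞ ρ
  nonneg : ∀ x, 0 ≤ ρ x
  supp : ∀ x, 1 < ‖x‖ → ρ x = 0
  int : ∫ x, ρ x = 1

/-- mollification with variable radius -/
def sm {n : ℕ} (ρ : E n → ℝ) (b δ : E n → ℝ) (x : E n) : ℝ := ∫ y, ρ y * b (x - δ x • y)

/-- SMA (120 lines). A mollifier exists; the mollification is smooth.
PROOF. `ContDiffBump.normed`. For `p > 0` let `G p z = p^{-n} ρ(z/p)`; substitution `z = x - δ x • y` gives
`sm ρ b δ x = ∫ b(z) G (δ x) (x - z) dz = (b ⋆ G (δ x)) x`. Locally `0 < δ x < R`; by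
`contDiffOn_convolution_right_with_param` (parameter set `{p | 0 < p < R}`, compact set `closedBall 0 R`) the function
`(p,x) ↦ (b ⋆ G p) x` is smooth; compose with `x ↦ (δ x, x)`. -/
def StSma : Prop := ∀ n : ℕ, (∃ ρ : E n → ℝ, Mol ρ) ∧
  ∀ (ρ : E n → ℝ), Mol ρ → ∀ b δ : E n → ℝ, Continuous b → ContDiff ℝ ∞ δ → (∀ x, 0 < δ x) →
    ContDiff ℝ ∞ (sm ρ b δ)

/-- SMB (180 lines). Closeness and gradient. Hypotheses: StCmp StMet StLoc StDlc StSma.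
PROOF. Let `K'` be the closed `1`-neighbourhood of `K`. For `x ∈ K`, `δ x ≤ 1`: `|b(x - δ x y) - b x| ≤ d x (x-δ x y) ≤ A δ x`
(`A² = M` from CMP on a large ball, segment): closeness. Gradient: for small `h`, `z = x - δ(x)y`,
`z' = x + hv - δ(x+hv)y = z + h(v - (Dδ(x)v)y) + o(h)` uniformly in `‖y‖ ≤ 1`; by uniform continuity of `g` on `K'` there
is `a > 0` such that for `y, z ∈ K'` with `‖y-z‖ ≤ a`: `|v|_y ≤ (11/10)|v|_z`, and `d z z' ≤ ∫` over the segment, so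
`|b z' - b z| ≤ d z z' ≤ (11/10)² |h| |v - (Dδ(x)v)y|_x + o(h) ≤ |h|((121/100)|v|_x + A'‖Dδ(x)‖‖v‖) + o(h)` if
`δ x ≤ a`, and `‖v‖ ≤ |v|_x/√m`. So with `η` small `|sm(x+hv) - sm(x)| ≤ 2|h||v|_x + o(h)`. -/
def StSmb : Prop := ∀ (n : ℕ) (g : E n → Bl n), IsMet g → ∀ (ρ : E n → ℝ), Mol ρ →
  ∀ b : E n → ℝ, (∀ x y, |b x - b y| ≤ dg g x y) → ∀ K : Set (E n), IsCompact K →
  ∃ η > 0, ∀ δ : E n → ℝ, ContDiff ℝ ∞ δ → (∀ x, 0 < δ x) → ∀ x ∈ K, δ x ≤ η →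
    ‖fderiv ℝ δ x‖ ≤ η →
    |sm ρ b δ x - b x| ≤ 1 ∧ ∀ v, |fderiv ℝ (sm ρ b δ) x v| ≤ 2 * nr g x v

/-- SMC (250 lines). The Hessian of the mollification. Hypotheses: StChr StCmp StMet StLoc StSma StGe.
PROOF. It is enough to treat `‖v‖ ≤ 1/2` (both sides are quadratic). Let `x ∈ K`,
`x_± = x ± hv - (h²/2)Γ_x(v,v)`, and for `‖y‖ ≤ 1` `z₀ = x - δ(x)y`, `z_± = x_± - δ(x_±)y`, `w = v - (Dδ(x)v)y`
(`‖w‖ ≤ 1` if `‖Dδ(x)‖ ≤ 1`). Taylor for `δ` at the fixed point `x`: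
`z_± = z₀ ± hw - (h²/2)(Γ_x(v,v) + (D²δ(v,v) - Dδ(Γ_x(v,v)))y) + O(h³)` uniformly in `y`. By GE (compact
`1`-neighbourhood of `K`) there is a geodesic `β` with `β 0 = z₀`, `β' 0 = w`, `β(±h) = z₀ ± hw - (h²/2)Γ_{z₀}(w,w) + O(h³)`,
uniformly in `y`. So `‖z_± - β(±h)‖ ≤ C₁(δ(x) + ‖Dδ(x)‖ + ‖D²δ(x)‖)‖v‖²h² + O(h³)`, `C₁` depending on `K` only
(`Γ` is Lipschitz on compact sets). Convexity of `b ∘ β` on `[-h,h]`: `b(β h) + b(β(-h)) ≥ 2b(z₀)`; and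
`|b z - b z'| ≤ d z z' ≤ C₂‖z-z'‖` near `K`. Multiply by `ρ y` and integrate:
`sm(x₊) + sm(x₋) - 2 sm(x) ≥ -C₃(δ(x)+‖Dδ(x)‖+‖D²δ(x)‖)‖v‖²h² - O(h³)`. As `sm` is smooth the left side divided by `h²`
tends to `D²sm(v,v) - D sm(Γ_x(v,v)) = Hs Γ sm x v v`. With `m‖v‖² ≤ g(v,v)` the claim follows for
`η ≤ ε₀ m/(3C₃)`, `η ≤ 1`. -/
def StSmc : Prop := ∀ (n : ℕ) (g : E n → Bl n) (Γ : E n → Bm n), IsMet g → IsChr g Γ →
  ∀ (ρ : E n → ℝ), Mol ρ → ∀ b : E n → ℝ, (∀ x y, |b x - b y| ≤ dg g x y) →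
  (∀ (c v : ℝ → E n) (s t : ℝ), s ≤ t → Geo Γ c v s t →
    ConvexOn ℝ (Icc s t) (fun τ => b (c τ))) → ∀ K : Set (E n), IsCompact K → ∀ ε₀ > 0,
  ∃ η > 0, ∀ δ : E n → ℝ, ContDiff ℝ ∞ δ → (∀ x, 0 < δ x) → ∀ x ∈ K, δ x ≤ η →
    ‖fderiv ℝ δ x‖ ≤ η → ‖fderiv ℝ (fderiv ℝ δ) x‖ ≤ η →
    ∀ v, -(ε₀ * g x v v) ≤ Hs Γ (sm ρ b δ) x v v

/-- SM (100 lines). Smoothing of a convex function. Hypotheses: StMet StDlc StDel StSma StSmb StSmc.
PROOF. `b` is continuous (Lipschitz for `d`, DLC). For `j ∈ ℕ` let `K_j = closedBall 0 (j+1)`, `ε_j` = minimum of `e` on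
`K_j`, `c j` = the minimum of the two numbers `η` of SMB and SMC for `K_j`, `ε₀ = ε_j`. Take `δ` from DEL and
`b' = sm ρ b δ`; a point `x` lies in `K_j` for `j = ⌊‖x‖⌋₊`. -/
def StSm : Prop := ∀ (n : ℕ) (g : E n → Bl n) (Γ : E n → Bm n), IsMet g → IsChr g Γ →
  ∀ b : E n → ℝ, (∀ x y, |b x - b y| ≤ dg g x y) →
  (∀ (c v : ℝ → E n) (s t : ℝ), s ≤ t → Geo Γ c v s t →
    ConvexOn ℝ (Icc s t) (fun τ => b (c τ))) →
  ∀ e : E n → ℝ, Continuous e → (∀ x, 0 < e x) → ∃ b' : E n → ℝ, ContDiff ℝ ∞ b' ∧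
    ∀ x, |b' x - b x| ≤ 1 ∧ (∀ v, |fderiv ℝ b' x v| ≤ 2 * nr g x v) ∧
      ∀ v, -(e x * g x v v) ≤ Hs Γ b' x v v

end Helper62.LH
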