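import Pool.Agent.Helper62.LH.StA

/-!
# Project LH, part S: Hodge star and translation from differential forms

Statements with complete proofs in the docstrings.
-/

set_option autoImplicit false

open Set Filter Topology MeasureTheory
open scoped ContDiff ENNReal

noncomputable section

namespace Helper62.LH

/-- determinant of the basis vectors with indices `I` and `J` -/
def eps {n k l : ℕ} (h : k + l = n) (I : Fin k → Fin n) (J : Fin l → Fin n) : ℝ :=
  vdet (ap h (fun a => ee (I a)) (fun b => ee (J b)))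

/-- CFR (100 lines). Change to an orthonormal frame.
PROOF. `f c = ∑ i, f c i • ee i`, so `X (fun a => f (I a)) = ∑ I', (∏ a, f (I a) (I' a)) * X (fun a => ee (I' a))`
(`MultilinearMap.map_sum`, `map_smul_univ`). So the right side is `∑ I' J', (∑ I, ∏ a, f (I a) (I' a) * f (I a) (J' a)) * (X * Y)`, and
`∑ I, ∏ a, f (I a) (I' a) * f (I a) (J' a) = ∏ a, ∑ c, f c (I' a) * f c (J' a) = ∏ a, gi g x (I' a) (J' a)`
(`Finset.prod_univ_sum`, `Onb.inv`). -/
def StCfr : Prop := ∀ (n : ℕ) (g : E n → Bl n) (x : E n) (f : Fin n → E n), Onb g x f →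
  ∀ (k : ℕ) (X Y : MultilinearMap ℝ (fun _ : Fin k => E n) ℝ),
    ∑ I : Fin k → Fin n, ∑ J : Fin k → Fin n, (∏ a, gi g x (I a) (J a)) *
      (X (fun a => ee (I a)) * Y (fun a => ee (J a))) =
    ∑ I : Fin k → Fin n, X (fun a => f (I a)) * Y (fun a => f (I a))

/-- EPS (180 lines). Product of two signs.
PROOF. `eps h I J` is the determinant of a `0/1` matrix, whose rows are the basis vectors with indices `I, J`: it is `0` unless the map
`(I,J) : Fin n → Fin n` is a permutation, and `±1` (its sign) then. `eps h (I ∘ σ) J = sign σ * eps h I J`. If `K` is not injective both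
sides are `0`. Let `K` be injective. For `J` with `(K,J)` a permutation, `eps h I J ≠ 0` iff `I` is injective with the same range as `K`
(the complement of the range of `J`), iff `I = K ∘ σ` for a unique permutation `σ` of `Fin k`; so
`∑ I, eps h I J * F I = ∑ σ, sign σ * eps h K J * sign σ * F K = k! eps h K J * F K`. If `(K,J)` is not a permutation, `eps h K J = 0`.
So the sum is `k! F K ∑ J, (eps h K J)²`, and the number of `J` with `(K,J)` a permutation is the number of bijections from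
`Fin l` to the complement of the range of `K` (`l` elements), `l!`. -/
def StEps : Prop := ∀ (n k l : ℕ) (h : k + l = n) (F : (Fin k → Fin n) → ℝ),
  (∀ I, ¬ Function.Injective I → F I = 0) →
  (∀ I (σ : Equiv.Perm (Fin k)), F (I ∘ σ) = ((Equiv.Perm.sign σ : ℤ) : ℝ) * F I) → ∀ K,
    ∑ I : Fin k → Fin n, ∑ J : Fin l → Fin n, eps h I J * eps h K J * F I =
      k.factorial * l.factorial * F K

/-- EPF (150 lines). Determinants of two groups of vectors.
PROOF. (1) `ap h' w u` is `ap h u w` composed with a permutation `π` of `Fin n` (exchange of the two blocks) which does not depend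
on `u, w`: `Matrix.det_permute`, `s = sign π`. (2) `ap h (f ∘ I) (f ∘ J) = f ∘ L`, `L = (I,J) : Fin n → Fin n`, and the matrix with rows
`f (L i)` is the product of the matrix with rows `ee (L i)` and the matrix with rows `f i` (`Matrix.det_mul`). (3), (4) `vdet` is
multilinear and alternating in the rows (`Matrix.detRowAlternating` composed with the equivalence of `EuclideanSpace ℝ (Fin n)`
and `Fin n → ℝ`); fix a part of the arguments; continuity: finite dimension (`MultilinearMap.continuous_of_finiteDimensional`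
or polynomial in the coordinates: `Continuous.matrix_det`). -/
def StEpf : Prop := ∀ (n k l : ℕ) (h : k + l = n) (h' : l + k = n),
  (∃ s : ℝ, s * s = 1 ∧ ∀ (u : Fin k → E n) (w : Fin l → E n),
    vdet (ap h' w u) = s * vdet (ap h u w)) ∧
  (∀ (f : Fin n → E n) (I : Fin k → Fin n) (J : Fin l → Fin n),
    vdet (ap h (fun a => f (I a)) (fun b => f (J b))) = vdet f * eps h I J) ∧
  (∀ u : Fin k → E n, ∃ A : E n [⋀^Fin l]→L[ℝ] ℝ, ∀ w, A w = vdet (ap h u w)) ∧
  ∀ w : Fin l → E n, ∃ A : E n [⋀^Fin k]→L[ℝ] ℝ, ∀ u, A u = vdet (ap h u w)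

/-- DUA (180 lines). The star is an isometry and its square is `±1`. Hypotheses: StOnb StCfr StEps StEpf.
PROOF. Fix `x`, an orthonormal basis `f`, `s₀ = vol g x * vdet f`, `s₀² = 1`, `F I = φ x (f ∘ I)`, `T J = τ x (f ∘ J)`. CFR with
`X u = vdet (ap h u w)` (EPF (4)), `Y = φ x`: `τ x w = (vol g x/k!) ∑ I, φ x (f ∘ I) * vdet (ap h (f ∘ I) w)`; for `w = f ∘ J` EPF (2):
`T J = (s₀/k!) ∑ I, F I * eps h I J`. Norms (CFR): `nsq g k x (φ x) = (∑ I, F I²)/k!`. EPS (`F` is alternating):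
`∑ J, T J² = (1/k!²) ∑ K, F K ∑ I J, eps h I J eps h K J F I = (l!/k!) ∑ K, F K²`. Second claim with `s` from EPF (1): both sides of the
required identity `s • φ x u = (vol g x/l!) ∑ J, τ x (f ∘ J) * vdet (ap h' (f ∘ J) u)` are multilinear in `u`, so it is enough to check
`u = f ∘ K` (`f` is a basis by `Onb.expd`; `Basis.ext_multilinear`): the right side is
`(1/l!) ∑ J, T J * s₀ * s * eps h K J = s (1/(k! l!)) ∑ I J, F I eps h I J eps h K J = s F K`. -/
def StDua : Prop := ∀ (n k l : ℕ) (h : k + l = n) (h' : l + k = n) (g : E n → Bl n), IsMet g →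
  ∃ s : ℝ, s * s = 1 ∧ ∀ (φ : E n → E n [⋀^Fin k]→L[ℝ] ℝ) (τ : E n → E n [⋀^Fin l]→L[ℝ] ℝ),
    IsStar h g φ τ → (∀ x, nsq g l x (τ x) = nsq g k x (φ x)) ∧
      IsStar h' g τ (fun x => s • φ x)

/-- DTZ (60 lines). Identity for `n+1` vectors of `ℝⁿ`.
PROOF. It is linear in `lam`, so let `lam` be the coordinate `m` (`lam v = ∑ m, lam (ee m) * v m`). The `(n+1) × (n+1)` matrix whose row `b`
is `(u b m, u b 0, ..., u b (n-1))` has two equal columns, so determinant `0`; expand along the first column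
(`Matrix.det_succ_column_zero`). -/
def StDtz : Prop := ∀ (n : ℕ) (u : Fin (n + 1) → E n) (lam : Dl n),
  ∑ b : Fin (n + 1), (-1) ^ (b : ℕ) * (lam (u b) * vdet (fun i => u (b.succAbove i))) = 0

/-- COT (200 lines). `d⋆φ = 0` in coordinates, `k = 2`. Hypotheses: StShp StDlv StDtz.
PROOF. `n = 2 + l`. `F_ij y = vol g y * up g P y i j` is smooth (SHP, DLV) and antisymmetric, and
`τ y w = (1/2) ∑ ij, F_ij y * vdet (ap h ![ee i, ee j] w)` (sum over `I : Fin 2 → Fin n` = sum over pairs). `extDeriv τ x w' =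
∑ a, (-1)^a * fderiv ℝ τ x (w' a) (w' ∘ a.succAbove) = (1/2) ∑ ij ∑ a, (-1)^a DF_ij(w' a) vdet(ee i, ee j, w' without a)` for
`w' : Fin (l+1) → E n`. DTZ for the `n+1` vectors `ee i, ee j, w'` and `lam = DF_ij`:
`∑ a, (-1)^a DF_ij(w' a) vdet(ee i, ee j, w' without a) = DF_ij(ee j) vdet(ee i, w') - DF_ij(ee i) vdet(ee j, w')`. By antisymmetry
`extDeriv τ x w' = ∑ i, (∑ j, DF_ij(ee j)) vdet(ee i, w')`. Let `w'` be the basis vectors different from `ee i₀` in increasing order: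
`vdet(ee i, w') = ±1` for `i = i₀` and `0` otherwise. -/
def StCot : Prop := ∀ (n l : ℕ) (h : 2 + l = n) (g : E n → Bl n) (Γ : E n → Bm n), IsMet g →
  IsChr g Γ → ∀ (φ : E n → E n [⋀^Fin 2]→L[ℝ] ℝ) (τ : E n → E n [⋀^Fin l]→L[ℝ] ℝ)
  (P : E n → Bl n), ContDiff ℝ ∞ P → (∀ x u v, P x u v = φ x ![u, v]) → ContDiff ℝ ∞ τ →
  IsStar h g φ τ → (∀ x, extDeriv τ x = 0) →
  ∀ x i, ∑ j, fderiv ℝ (fun y => vol g y * up g P y i j) x (ee j) = 0

/-- COO (150 lines). `d⋆φ = 0` in coordinates, `k = 1`. Hypotheses: StShp StDlv StDtz.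
PROOF. `n = 1 + l`. `F_i y = vol g y * ∑ j, gi g y i j * θ y (ee j)`, `τ y w = ∑ i, F_i y * vdet (ap h ![ee i] w)`.
`extDeriv τ x w' = ∑ i ∑ a, (-1)^a DF_i(w' a) vdet(ee i, w' without a) = ∑ i, DF_i(ee i) vdet w'` by DTZ for `ee i, w'`
(`w' : Fin (l+1) → E n`, `l + 1 = n`). Let `w'` be the standard basis, `vdet w' = 1`. -/
def StCoo : Prop := ∀ (n l : ℕ) (h : 1 + l = n) (g : E n → Bl n) (Γ : E n → Bm n), IsMet g →
  IsChr g Γ → ∀ (φ : E n → E n [⋀^Fin 1]→L[ℝ] ℝ) (τ : E n → E n [⋀^Fin l]→L[ℝ] ℝ)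
  (θ : E n → Dl n), ContDiff ℝ ∞ θ → (∀ x v, θ x v = φ x ![v]) → ContDiff ℝ ∞ τ →
  IsStar h g φ τ → (∀ x, extDeriv τ x = 0) →
  ∀ x, ∑ i, fderiv ℝ (fun y => vol g y * ∑ j, gi g y i j * θ y (ee j)) x (ee i) = 0

/-- BLT (120 lines). `2`-forms as bilinear forms.
PROOF. `P x u v = φ x ![u, v]`, a composition of `φ` with a continuous linear map from alternating to bilinear maps (e.g. build
`P x = ∑ i j, φ x ![ee i, ee j] • (proj i ⊗ proj j)`; evaluation of `φ x` at fixed vectors is continuous linear, so `P` is smooth).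
`extDeriv φ x ![u,v,w] = D_uφ(v,w) - D_vφ(u,w) + D_wφ(u,v)` (`ContinuousAlternatingMap.alternatizeUncurryFin_apply`,
`Fin.sum_univ_three`). `nsq g 2`: the sums over `I : Fin 2 → Fin n` are sums over pairs (`Fin.consEquiv`, `finTwoArrowEquiv`), the product
over `Fin 2` is `gi i₀ j₀ * gi i₁ j₁`. -/
def StBlt : Prop := ∀ (n : ℕ) (g : E n → Bl n) (φ : E n → E n [⋀^Fin 2]→L[ℝ] ℝ),
  ContDiff ℝ ∞ φ → ∃ P : E n → Bl n, ContDiff ℝ ∞ P ∧ (∀ x u v, P x u v = φ x ![u, v]) ∧
    (∀ x u v, P x u v = -P x v u) ∧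
    ((∀ x, extDeriv φ x = 0) →
      ∀ x u v w, fderiv ℝ P x u v w + fderiv ℝ P x v w u + fderiv ℝ P x w u v = 0) ∧
    ∀ x, nsq g 2 x (φ x) = nB g x (fun u v => P x u v) / 2

/-- BLO (80 lines). `1`-forms as covectors.
PROOF. As BLT: `θ x v = φ x ![v]`, `extDeriv φ x ![u,v] = D_uφ(v) - D_vφ(u)`. -/
def StBlo : Prop := ∀ (n : ℕ) (g : E n → Bl n) (φ : E n → E n [⋀^Fin 1]→L[ℝ] ℝ),
  ContDiff ℝ ∞ φ → ∃ θ : E n → Dl n, ContDiff ℝ ∞ θ ∧ (∀ x v, θ x v = φ x ![v]) ∧
    ((∀ x, extDeriv φ x = 0) → ∀ x u v, dd θ x u v = 0) ∧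
    ∀ x, nsq g 1 x (φ x) = ip g x (θ x) (θ x)

/-- EX (80 lines). The Hodge star exists and is smooth. Hypotheses: StShp StDlv StEpf.
PROOF. `τ x = ∑ I, ∑ J, ((vol g x/k!) (∏ a, gi g x (I a) (J a)) φ x (ee ∘ J)) • A_I` with `A_I` from EPF (3); the coefficients are smooth. -/
def StEx : Prop := ∀ (n k l : ℕ) (h : k + l = n) (g : E n → Bl n) (Γ : E n → Bm n), IsMet g →
  IsChr g Γ → ∀ φ : E n → E n [⋀^Fin k]→L[ℝ] ℝ, ContDiff ℝ ∞ φ →
  ∃ τ : E n → E n [⋀^Fin l]→L[ℝ] ℝ, ContDiff ℝ ∞ τ ∧ IsStar h g φ τ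

end Helper62.LH
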